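import Pool.Agent.K4H33.ZO.Modular

/-!
# A zero-one law for the Shimura map on random words
-/

set_option autoImplicit false

namespace Pool.Agent.K4H33.ZO

open Pool.Agent.TH133.SH Matrix.SpecialLinearGroup MatrixGroups ModularGroup

/-- The product of a word in the letters `T` and `L`. -/
def prodWord (l : List Bool) : SL(2, ℤ) := (l.map letter).prod

/-- The word `w` is closed: its product lies in `Γ₀(N)`. -/
def IsClosedWord (N : ℕ) {n : ℕ} (w : Fin n → Bool) : Prop :=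
  (N : ℤ) ∣ prodWord (List.ofFn w) 1 0

/-- The coordinates of the value of the Shimura map at the product of the word `w` have absolute
values at most `X`. -/
def GoodWord (a : ℕ → ℤ) (Ω₁ Ω₂ : ℂ) {n : ℕ} (w : Fin n → Bool) (X : ℝ) : Prop :=
  CoordBound a Ω₁ Ω₂ (prodWord (List.ofFn w) 0 0) (prodWord (List.ofFn w) 0 1)
    (prodWord (List.ofFn w) 1 0) (prodWord (List.ofFn w) 1 1) X

/-- There are exponents `κ₀`, `κ` and a constant `C` such that, for every newform of every level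
`N`, there is a length `n ≥ N ^ (4 * κ₀ + 40)` such that at least the proportion `N ^ (-κ₀)` of the
closed words of length `n` satisfies the bound `C N ^ κ`. -/
def SparseWords : Prop :=
  ∃ κ₀ : ℕ, ∃ κ : ℝ, 0 < κ ∧ ∃ C : ℝ, 0 < C ∧ ∀ N : ℕ, 1 ≤ N → ∀ a : ℕ → ℤ, IsNewform N a →
    ∀ Ω₁ Ω₂ : ℂ, IsBasis N a Ω₁ Ω₂ → ∃ n : ℕ, N ^ (4 * κ₀ + 40) ≤ n ∧
      {w : Fin n → Bool | IsClosedWord N w}.ncard ≤
        N ^ κ₀ * {w : Fin n → Bool | IsClosedWord N w ∧ GoodWord a Ω₁ Ω₂ w (C * (N : ℝ) ^ κ)}.ncard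

/-- For every `B` there are `κ` and `C` such that, for every newform of every level `N`, all closed
words of length at most `N ^ B` satisfy the bound `C N ^ κ`. -/
def AllWords : Prop :=
  ∀ B : ℕ, ∃ κ : ℝ, 0 < κ ∧ ∃ C : ℝ, 0 < C ∧ ∀ N : ℕ, 1 ≤ N → ∀ a : ℕ → ℤ, IsNewform N a →
    ∀ Ω₁ Ω₂ : ℂ, IsBasis N a Ω₁ Ω₂ → ∀ n : ℕ, n ≤ N ^ B → ∀ w : Fin n → Bool,
      IsClosedWord N w → GoodWord a Ω₁ Ω₂ w (C * (N : ℝ) ^ κ)

lemma closed_eq (N n : ℕ) [NeZero N] :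
    {w : Fin n → Bool | IsClosedWord N w}.ncard = (closed (Gam N) letter n).card := by
  rw [← Set.ncard_coe_finset]
  congr 1
  ext w
  simp only [closed, Finset.coe_filter, Finset.mem_univ, true_and, Set.mem_ofPred_eq]
  rfl

/-- the bound for one coordinate -/
lemma coordinate {N κ₀ : ℕ} (hN : 2 ≤ N) {φ : SL(2, ℤ) → ℝ} (hφ : IsCuspHom N φ) {n : ℕ}
    (hn : N ^ (4 * κ₀ + 40) ≤ n) {X : ℝ} (hX : 0 ≤ X) (S : Finset (Fin n → Bool))
    (hS : ∀ w ∈ S, IsClosedWord N w ∧ |φ (prodWord (List.ofFn w))| ≤ X)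
    (hcard : {w : Fin n → Bool | IsClosedWord N w}.ncard ≤ N ^ κ₀ * S.card)
    {γ : SL(2, ℤ)} (hγ : InG N γ) (hb : |γ 1 0| ≤ (N : ℤ) ^ 2) : |φ γ| ≤ 8 * X := by
  have : NeZero N := ⟨by omega⟩
  by_contra hc
  push Not at hc
  have h0 : φ γ ≠ 0 := by
    intro h
    rw [h, abs_zero] at hc
    linarith
  have hr0 : γ 1 0 ≠ 0 := fun h => h0 (hφ.zero_of_lower h)
  obtain ⟨l, hl, hl1, hl2⟩ := reduce hφ hγ hr0 (m := 4 * N ^ 2) (by push_cast; linarith)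
  set v := Fintype.card (SL(2, ℤ) ⧸ Gam N) with hv
  have hvN : v ≤ N ^ 2 := card_le N
  have hm : 0 < 4 * N ^ 2 := by positivity
  have hr : Reach (Gam N) letter (4 * N ^ 2) := reach (by omega)
  have hmul : ∀ γ ∈ Gam N, ∀ g ∈ Gam N, φ (γ * g) = φ γ + φ g :=
    fun γ hγ g hg => hφ.map_mul γ g hγ hg
  have ht : letter false ∈ Gam N := by
    change (N : ℤ) ∣ 0
    exact dvd_zero _
  have ht0 : φ (letter false) = 0 := hφ.zero_of_lower rfl
  set R : ℕ := 8 * N ^ (κ₀ + 2) + 1 with hR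
  have hNpos : 0 < N := by omega
  have hpw : 1 ≤ N ^ (κ₀ + 2) := Nat.one_le_pow _ _ hNpos
  have hR9 : R ≤ 9 * N ^ (κ₀ + 2) := by omega
  have h21 : 2 ^ 21 ≤ N ^ 21 := Nat.pow_le_pow_left hN 21
  have hn1 : 4 * N ^ 2 * (3 * R ^ 4 * v * (4 * N ^ 2) ^ 2) ≤ n := by
    calc 4 * N ^ 2 * (3 * R ^ 4 * v * (4 * N ^ 2) ^ 2)
        ≤ 4 * N ^ 2 * (3 * (9 * N ^ (κ₀ + 2)) ^ 4 * N ^ 2 * (4 * N ^ 2) ^ 2) := by gcongr
      _ = 1259712 * N ^ (4 * κ₀ + 16) := by ring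
      _ ≤ 2 ^ 21 * N ^ (4 * κ₀ + 16) := Nat.mul_le_mul_right _ (by norm_num)
      _ ≤ N ^ 21 * N ^ (4 * κ₀ + 16) := Nat.mul_le_mul_right _ h21
      _ = N ^ (4 * κ₀ + 37) := by ring
      _ ≤ N ^ (4 * κ₀ + 40) := Nat.pow_le_pow_right hNpos (by omega)
      _ ≤ n := hn
  have hn2 : 4 * N ^ 2 * (256 * v ^ 3 * (4 * N ^ 2) ^ 2) ≤ n := by
    calc 4 * N ^ 2 * (256 * v ^ 3 * (4 * N ^ 2) ^ 2)
        ≤ 4 * N ^ 2 * (256 * (N ^ 2) ^ 3 * (4 * N ^ 2) ^ 2) := by gcongr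
      _ = 16384 * N ^ 12 := by ring
      _ ≤ 2 ^ 21 * N ^ 12 := Nat.mul_le_mul_right _ (by norm_num)
      _ ≤ N ^ 21 * N ^ 12 := Nat.mul_le_mul_right _ h21
      _ = N ^ 33 := by ring
      _ ≤ N ^ (4 * κ₀ + 40) := Nat.pow_le_pow_right hNpos (by omega)
      _ ≤ n := hn
  have h1 := few_small hmul letter ht ht0 hm hr hl hl1 (R := R) (by omega) (X := X)
    (by rw [hl2]; exact hc.le) (by rw [hl2]; exact h0) hn1 S (fun w hw => by
      refine ⟨?_, (hS w hw).2⟩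
      classical
      simp only [closed, Finset.mem_filter, Finset.mem_univ, true_and]
      exact (hS w hw).1)
  have h2 := closed_card letter ht hm hr hn2
  rw [closed_eq] at hcard
  have hcard' : ((closed (Gam N) letter n).card : ℝ) ≤ (N : ℝ) ^ κ₀ * S.card := by
    exact_mod_cast hcard
  have hvN' : (Fintype.card (SL(2, ℤ) ⧸ Gam N) : ℝ) ≤ (N : ℝ) ^ 2 := by exact_mod_cast hvN
  have h3 : (2 : ℝ) ^ n ≤ 2 * (N : ℝ) ^ 2 * ((N : ℝ) ^ κ₀ * S.card) := by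
    refine h2.trans ?_
    gcongr
  have hS0 : (0 : ℝ) < S.card := by
    by_contra h
    have h4 : (S.card : ℝ) = 0 := le_antisymm (not_lt.1 h) (Nat.cast_nonneg _)
    rw [h4, mul_zero, mul_zero] at h3
    have : (0 : ℝ) < 2 ^ n := by positivity
    linarith
  have h4 : (R : ℝ) * S.card ≤ (8 * (N : ℝ) ^ (κ₀ + 2)) * S.card := by
    calc (R : ℝ) * S.card ≤ 4 * 2 ^ n := h1
      _ ≤ 4 * (2 * (N : ℝ) ^ 2 * ((N : ℝ) ^ κ₀ * S.card)) := by gcongr
      _ = _ := by ring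
  have h5 := le_of_mul_le_mul_right h4 hS0
  rw [hR] at h5
  push_cast at h5
  linarith

lemma coord_zero {N : ℕ} {a : ℕ → ℤ} {Ω₁ Ω₂ : ℂ} (hb : IsBasis N a Ω₁ Ω₂)
    {p q r s : ℤ} (hdet : p * s - q * r = 1) (h1 : Hs a (mk p q r s hdet) = 0) {X : ℝ}
    (hX : 0 ≤ X) : CoordBound a Ω₁ Ω₂ p q r s X := by
  intro m n hmn
  have hHγ : Hs a (mk p q r s hdet) = (m : ℂ) * Ω₁ + (n : ℂ) * Ω₂ := hmn
  rw [h1] at hHγ
  have h4 := L₁_apply hb m n
  have h5 := L₂_apply hb m n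
  rw [← hHγ, map_zero] at h4 h5
  rw [← h4, ← h5, abs_zero]
  exact ⟨hX, hX⟩

lemma Hs_zero_of_lower {N : ℕ} {a : ℕ → ℤ} (ha : IsForm N a) {g : SL(2, ℤ)} (hg : g 1 0 = 0) :
    Hs a g = 0 :=
  Complex.ext ((isCuspHom ha Complex.reLm).zero_of_lower hg)
    ((isCuspHom ha Complex.imLm).zero_of_lower hg)

theorem sparse_imp (h : SparseWords) : EntriesAtMost 2 := by
  obtain ⟨κ₀, κ, hκ, C, hC, h⟩ := h
  refine ⟨κ, hκ, 8 * C, by positivity, ?_⟩
  intro N hN a ha Ω₁ Ω₂ hb p q r s hdet hr _ _ hrb _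
  rcases Nat.lt_or_ge N 2 with hN2 | hN2
  · obtain rfl : N = 1 := by omega
    refine coord_zero hb hdet ?_ (by positivity)
    exact Complex.ext (level_one (isCuspHom ha.toIsForm Complex.reLm) _)
      (level_one (isCuspHom ha.toIsForm Complex.imLm) _)
  obtain ⟨n, hn, hcard⟩ := h N hN a ha Ω₁ Ω₂ hb
  have hfin : {w : Fin n → Bool | IsClosedWord N w ∧
      GoodWord a Ω₁ Ω₂ w (C * (N : ℝ) ^ κ)}.Finite := Set.toFinite _
  rw [Set.ncard_eq_toFinset_card _ hfin] at hcard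
  have hX : (0 : ℝ) ≤ C * (N : ℝ) ^ κ := by positivity
  have key : ∀ w ∈ hfin.toFinset, IsClosedWord N w ∧
      |L₁ Ω₁ Ω₂ (Hs a (prodWord (List.ofFn w)))| ≤ C * (N : ℝ) ^ κ ∧
      |L₂ Ω₂ (Hs a (prodWord (List.ofFn w)))| ≤ C * (N : ℝ) ^ κ := by
    intro w hw
    rw [Set.Finite.mem_toFinset] at hw
    obtain ⟨hw1, hw2⟩ := hw
    obtain ⟨m', n', hmn'⟩ := lattice ha.toIsForm hb (z := Hs a (prodWord (List.ofFn w)))
      ⟨_, hw1, rfl⟩
    have h1 := hw2 m' n' hmn'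
    rw [hmn', L₁_apply hb, L₂_apply hb]
    exact ⟨hw1, h1⟩
  have h1 := coordinate hN2 (isCuspHom ha.toIsForm (L₁ Ω₁ Ω₂)) hn hX hfin.toFinset
    (fun w hw => ⟨(key w hw).1, (key w hw).2.1⟩) hcard (γ := mk p q r s hdet) hr hrb
  have h2 := coordinate hN2 (isCuspHom ha.toIsForm (L₂ Ω₂)) hn hX hfin.toFinset
    (fun w hw => ⟨(key w hw).1, (key w hw).2.2⟩) hcard (γ := mk p q r s hdet) hr hrb
  intro m n hmn
  have hHγ : Hs a (mk p q r s hdet) = (m : ℂ) * Ω₁ + (n : ℂ) * Ω₂ := hmn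
  rw [hHγ, L₁_apply hb] at h1
  rw [hHγ, L₂_apply hb] at h2
  rw [mul_assoc]
  exact ⟨h1, h2⟩

lemma entries_le (l : List Bool) : 0 ≤ prodWord l 0 0 ∧ 0 ≤ prodWord l 0 1 ∧ 0 ≤ prodWord l 1 0 ∧
    0 ≤ prodWord l 1 1 ∧ prodWord l 0 0 + prodWord l 1 0 ≤ 2 ^ l.length ∧
    prodWord l 0 1 + prodWord l 1 1 ≤ 2 ^ l.length := by
  induction l with
  | nil => refine ⟨?_, ?_, ?_, ?_, ?_, ?_⟩ <;> simp [prodWord]
  | cons b l ih =>
    obtain ⟨h1, h2, h3, h4, h5, h6⟩ := ih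
    have hp : prodWord (b :: l) = letter b * prodWord l := by
      rw [prodWord, prodWord, List.map_cons, List.prod_cons]
    have e : ∀ i j, letter b i j = (if b then !![1, 0; 1, 1] else !![1, 1; 0, 1] :
        Matrix (Fin 2) (Fin 2) ℤ) i j := by
      intro i j
      cases b <;> rfl
    rw [hp, mul00, mul01, mul10, mul11, List.length_cons, pow_succ]
    cases b
    · have e00 : letter false 0 0 = 1 := rfl
      have e01 : letter false 0 1 = 1 := rfl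
      have e10 : letter false 1 0 = 0 := rfl
      have e11 : letter false 1 1 = 1 := rfl
      rw [e00, e01, e10, e11]
      refine ⟨?_, ?_, ?_, ?_, ?_, ?_⟩ <;> linarith
    · have e00 : letter true 0 0 = 1 := rfl
      have e01 : letter true 0 1 = 0 := rfl
      have e10 : letter true 1 0 = 1 := rfl
      have e11 : letter true 1 1 = 1 := rfl
      rw [e00, e01, e10, e11]
      refine ⟨?_, ?_, ?_, ?_, ?_, ?_⟩ <;> linarith

theorem log_imp (h : LogarithmicGrowth) : AllWords := by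
  obtain ⟨κ, hκ, C, hC, h⟩ := h
  intro B
  refine ⟨κ + B, by positivity, 2 * C, by positivity, ?_⟩
  intro N hN a ha Ω₁ Ω₂ hb n hn w hw
  set g := prodWord (List.ofFn w) with hg
  have hdet : g 0 0 * g 1 1 - g 0 1 * g 1 0 = 1 := det_eq g
  have hgm : mk (g 0 0) (g 0 1) (g 1 0) (g 1 1) hdet = g := by
    ext i j
    fin_cases i <;> fin_cases j <;> rfl
  have hN0 : (0 : ℝ) < N := by exact_mod_cast hN
  by_cases h0 : g 1 0 = 0
  · refine coord_zero hb hdet ?_ (by positivity)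
    rw [hgm]
    exact Hs_zero_of_lower ha.toIsForm h0
  · have h1 := h N hN a ha Ω₁ Ω₂ hb (g 0 0) (g 0 1) (g 1 0) (g 1 1) hdet hw h0
    intro m k hmk
    have h2 := h1 m k hmk
    have h3 : Real.log |((g 1 0 : ℤ) : ℝ)| ≤ n := by
      obtain ⟨e1, e2, e3, e4, e5, e6⟩ := entries_le (List.ofFn w)
      rw [List.length_ofFn] at e5
      have h4 : |g 1 0| ≤ 2 ^ n := by
        rw [abs_of_nonneg e3]
        linarith
      have h5 : |((g 1 0 : ℤ) : ℝ)| ≤ 2 ^ n := by exact_mod_cast h4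
      have h6 : 0 < |((g 1 0 : ℤ) : ℝ)| := by
        rw [abs_pos]
        exact_mod_cast h0
      have h7 := Real.log_le_log h6 h5
      rw [Real.log_pow] at h7
      have h8 : Real.log 2 ≤ 1 := by
        have := Real.log_two_lt_d9
        linarith
      have h9 : (0 : ℝ) ≤ n := Nat.cast_nonneg _
      nlinarith
    have h4 : (n : ℝ) ≤ (N : ℝ) ^ B := by exact_mod_cast hn
    have h5 : (1 : ℝ) ≤ (N : ℝ) ^ B := one_le_pow₀ (by exact_mod_cast hN)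
    have h6 : C * (N : ℝ) ^ κ * (1 + Real.log |((g 1 0 : ℤ) : ℝ)|) ≤
        2 * C * (N : ℝ) ^ (κ + B) := by
      rw [Real.rpow_add hN0, Real.rpow_natCast]
      calc C * (N : ℝ) ^ κ * (1 + Real.log |((g 1 0 : ℤ) : ℝ)|)
          ≤ C * (N : ℝ) ^ κ * ((N : ℝ) ^ B + (N : ℝ) ^ B) := by
            gcongr
            linarith
        _ = _ := by ring
    exact ⟨h2.1.trans h6, h2.2.trans h6⟩

theorem all_imp (h : AllWords) : SparseWords := by
  obtain ⟨κ, hκ, C, hC, h⟩ := h 40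
  refine ⟨0, κ, hκ, C, hC, ?_⟩
  intro N hN a ha Ω₁ Ω₂ hb
  refine ⟨N ^ 40, by simp, ?_⟩
  rw [pow_zero, one_mul]
  refine Set.ncard_le_ncard ?_ (Set.toFinite _)
  intro w hw
  exact ⟨hw, h N hN a ha Ω₁ Ω₂ hb _ le_rfl w hw⟩

/-- For every newform of every level `N ≥ 2`, every `γ ∈ Γ₀(N)` with lower left entry at most
`N ^ 2`, every `κ₀` and every length `n ≥ N ^ (4 * κ₀ + 40)`: fewer than the proportion `N ^ (-κ₀)` of
the closed words of length `n` have a first coordinate smaller than an eighth of the first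
coordinate of `γ`, and the same holds for the second coordinates. -/
def AntiConcentration : Prop :=
  ∀ N : ℕ, 2 ≤ N → ∀ a : ℕ → ℤ, IsNewform N a → ∀ Ω₁ Ω₂ : ℂ, IsBasis N a Ω₁ Ω₂ →
    ∀ p q r s : ℤ, p * s - q * r = 1 → (N : ℤ) ∣ r → |r| ≤ (N : ℤ) ^ 2 →
    ∀ m₁ m₂ : ℤ, Hval a p q r s = (m₁ : ℂ) * Ω₁ + (m₂ : ℂ) * Ω₂ →
    ∀ κ₀ n : ℕ, N ^ (4 * κ₀ + 40) ≤ n →
      N ^ κ₀ * {w : Fin n → Bool | IsClosedWord N w ∧ ∃ k₁ k₂ : ℤ,
        Hs a (prodWord (List.ofFn w)) = (k₁ : ℂ) * Ω₁ + (k₂ : ℂ) * Ω₂ ∧ 8 * |k₁| < |m₁|}.ncard <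
          {w : Fin n → Bool | IsClosedWord N w}.ncard ∧
      N ^ κ₀ * {w : Fin n → Bool | IsClosedWord N w ∧ ∃ k₁ k₂ : ℤ,
        Hs a (prodWord (List.ofFn w)) = (k₁ : ℂ) * Ω₁ + (k₂ : ℂ) * Ω₂ ∧ 8 * |k₂| < |m₂|}.ncard <
          {w : Fin n → Bool | IsClosedWord N w}.ncard

lemma closed_pos (N n : ℕ) :
    0 < {w : Fin n → Bool | IsClosedWord N w}.ncard := by
  rw [Set.ncard_pos (Set.toFinite _)]
  refine ⟨fun _ => false, ?_⟩
  have h1 : ∀ k : ℕ, (N : ℤ) ∣ prodWord (List.replicate k false) 1 0 := by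
    intro k
    induction k with
    | zero => simp [prodWord]
    | succ k ih =>
      have hp : prodWord (List.replicate (k + 1) false) =
          letter false * prodWord (List.replicate k false) := by
        rw [prodWord, prodWord, List.replicate_succ, List.map_cons, List.prod_cons]
      rw [hp, mul10]
      have e10 : letter false 1 0 = 0 := rfl
      have e11 : letter false 1 1 = 1 := rfl
      rw [e10, e11, zero_mul, zero_add, one_mul]
      exact ih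
  change (N : ℤ) ∣ prodWord (List.ofFn fun _ : Fin n => false) 1 0
  rw [List.ofFn_const]
  exact h1 n

lemma anti_one {N κ₀ : ℕ} (hN : 2 ≤ N) {φ : SL(2, ℤ) → ℝ} (hφ : IsCuspHom N φ) {n : ℕ}
    (hn : N ^ (4 * κ₀ + 40) ≤ n) {γ : SL(2, ℤ)} (hγ : InG N γ) (hb : |γ 1 0| ≤ (N : ℤ) ^ 2)
    {m : ℤ} (hm : φ γ = m) (P : (Fin n → Bool) → Prop)
    (hP : ∀ w, P w → IsClosedWord N w ∧ ∃ k : ℤ, φ (prodWord (List.ofFn w)) = k ∧
      8 * |k| < |m|) :
    N ^ κ₀ * {w | P w}.ncard < {w : Fin n → Bool | IsClosedWord N w}.ncard := by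
  by_contra hc
  push Not at hc
  by_cases h0 : m = 0
  · have h1 : {w | P w} = ∅ := by
      rw [Set.eq_empty_iff_forall_notMem]
      intro w hw
      obtain ⟨-, k, -, hk⟩ := hP w hw
      rw [h0, abs_zero] at hk
      have := abs_nonneg k
      omega
    rw [h1, Set.ncard_empty, mul_zero] at hc
    have := closed_pos N n
    omega
  · have hfin : {w | P w}.Finite := Set.toFinite _
    rw [Set.ncard_eq_toFinset_card _ hfin] at hc
    have hm1 : (1 : ℤ) ≤ |m| := Int.one_le_abs h0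
    have h1 := coordinate hN hφ hn (X := ((|m| - 1 : ℤ) : ℝ) / 8)
      (by
        have : (0 : ℝ) ≤ ((|m| - 1 : ℤ) : ℝ) := by exact_mod_cast (by omega : (0 : ℤ) ≤ |m| - 1)
        positivity) hfin.toFinset (by
        intro w hw
        rw [Set.Finite.mem_toFinset] at hw
        obtain ⟨h1, k, hk, hk'⟩ := hP w hw
        refine ⟨h1, ?_⟩
        rw [hk, le_div_iff₀ (by norm_num)]
        have : |k| * 8 ≤ |m| - 1 := by omega
        exact_mod_cast this) hc hγ hb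
    rw [hm] at h1
    have h2 : (8 : ℝ) * (((|m| - 1 : ℤ) : ℝ) / 8) = ((|m| - 1 : ℤ) : ℝ) := by ring
    rw [h2] at h1
    have h3 : |m| ≤ |m| - 1 := by exact_mod_cast h1
    omega

theorem anti : AntiConcentration := by
  intro N hN a ha Ω₁ Ω₂ hb p q r s hdet hr hrb m₁ m₂ hm κ₀ n hn
  have hm' : Hs a (mk p q r s hdet) = (m₁ : ℂ) * Ω₁ + (m₂ : ℂ) * Ω₂ := hm
  constructor
  · refine anti_one hN (isCuspHom ha.toIsForm (L₁ Ω₁ Ω₂)) hn (γ := mk p q r s hdet) hr hrb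
      (m := m₁) (by rw [hm', L₁_apply hb]) _ ?_
    rintro w ⟨h1, k₁, k₂, h2, h3⟩
    exact ⟨h1, k₁, by rw [h2, L₁_apply hb], h3⟩
  · refine anti_one hN (isCuspHom ha.toIsForm (L₂ Ω₂)) hn (γ := mk p q r s hdet) hr hrb
      (m := m₂) (by rw [hm', L₂_apply hb]) _ ?_
    rintro w ⟨h1, k₁, k₂, h2, h3⟩
    exact ⟨h1, k₂, by rw [h2, L₂_apply hb], h3⟩

/-- **Zero-one law.** -/
theorem words_tfae : List.TFAE [EntriesAtMost 2, SparseWords, AllWords] := by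
  tfae_have 2 → 1 := sparse_imp
  tfae_have 3 → 2 := all_imp
  tfae_have 1 → 3 := fun h => log_imp ((shimura_tfae.out 0 2).1 h)
  tfae_finish

end Pool.Agent.K4H33.ZO
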