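import Pool.Agent.K4H33.ZO.Words
import Pool.Agent.TH133.SH.Main

/-!
# Words in the two parabolic letters
-/

set_option autoImplicit false

namespace Pool.Agent.K4H33.ZO

open Pool.Agent.TH133.SH Matrix.SpecialLinearGroup MatrixGroups ModularGroup Pointwise

/-- The subgroup `Γ₀(N)`. -/
def Gam (N : ℕ) : Subgroup SL(2, ℤ) where
  carrier := {g | InG N g}
  mul_mem' := fun h1 h2 => InG.mul h1 h2
  one_mem' := inG_one
  inv_mem' := fun h => InG.inv h

lemma mem_Gam {N : ℕ} {g : SL(2, ℤ)} : g ∈ Gam N ↔ InG N g := Iff.rfl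

/-- the bottom row of a representative -/
noncomputable def row (N : ℕ) (x : SL(2, ℤ) ⧸ Gam N) : ZMod N × ZMod N :=
  (((x.out)⁻¹ 1 0 : ℤ), ((x.out)⁻¹ 1 1 : ℤ))

lemma row_inj (N : ℕ) : Function.Injective (row N) := by
  intro x y hxy
  rw [row, row, Prod.mk.injEq] at hxy
  obtain ⟨h1, h2⟩ := hxy
  rw [← QuotientGroup.out_eq' x, ← QuotientGroup.out_eq' y, QuotientGroup.eq]
  change (N : ℤ) ∣ ((x.out)⁻¹ * y.out) 1 0
  rw [ZMod.intCast_eq_intCast_iff_dvd_sub] at h1 h2
  rw [inv10, inv10] at h1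
  rw [inv11, inv11] at h2
  rw [mul10, inv10, inv11]
  obtain ⟨u, hu⟩ := h1
  obtain ⟨w, hw⟩ := h2
  refine ⟨-(u * y.out 0 0) - w * y.out 1 0, ?_⟩
  linear_combination -(y.out 0 0) * hu - (y.out 1 0) * hw

noncomputable instance instFin (N : ℕ) [NeZero N] : Fintype (SL(2, ℤ) ⧸ Gam N) :=
  Fintype.ofInjective (row N) (row_inj N)

lemma card_le (N : ℕ) [NeZero N] : Fintype.card (SL(2, ℤ) ⧸ Gam N) ≤ N ^ 2 := by
  refine (Fintype.card_le_of_injective (row N) (row_inj N)).trans ?_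
  rw [Fintype.card_prod, ZMod.card, sq]

/-- The two letters: `T = (1 1; 0 1)` and `L = (1 0; 1 1)`. -/
def letter (b : Bool) : SL(2, ℤ) := if b then mk 1 0 1 1 (by norm_num) else mk 1 1 0 1 (by norm_num)

lemma letter_true : letter true = mk 1 0 1 1 (by norm_num) := rfl
lemma letter_false : letter false = mk 1 1 0 1 (by norm_num) := rfl

lemma letter_false_eq : letter false = T := by
  ext i j
  fin_cases i <;> fin_cases j <;> rfl

lemma letter_S : (letter false)⁻¹ * letter true * (letter false)⁻¹ = S := by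
  ext i j
  fin_cases i <;> fin_cases j <;> rfl

lemma closure_letter {H : Subgroup SL(2, ℤ)} (h : ∀ b, letter b ∈ H) : H = ⊤ := by
  rw [eq_top_iff, ← SpecialLinearGroup.SL2Z_generators, Subgroup.closure_le]
  rintro g (rfl | rfl)
  · rw [SetLike.mem_coe, ← letter_S]
    exact H.mul_mem (H.mul_mem (H.inv_mem (h _)) (h _)) (H.inv_mem (h _))
  · rw [SetLike.mem_coe, ← letter_false_eq]
    exact h _

open Classical in
/-- the cosets of the words with at most `j` letters -/
noncomputable def ball (N : ℕ) [NeZero N] (j : ℕ) : Finset (SL(2, ℤ) ⧸ Gam N) :=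
  Finset.univ.filter fun x => ∃ l : List Bool, l.length ≤ j ∧
    (((word letter l)⁻¹ : SL(2, ℤ)) : SL(2, ℤ) ⧸ Gam N) = x

lemma mem_ball {N : ℕ} [NeZero N] {j : ℕ} {x : SL(2, ℤ) ⧸ Gam N} :
    x ∈ ball N j ↔ ∃ l : List Bool, l.length ≤ j ∧
      (((word letter l)⁻¹ : SL(2, ℤ)) : SL(2, ℤ) ⧸ Gam N) = x := by
  classical
  simp only [ball, Finset.mem_filter, Finset.mem_univ, true_and]

lemma ball_mono {N : ℕ} [NeZero N] {i j : ℕ} (hij : i ≤ j) : ball N i ⊆ ball N j := by
  intro x hx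
  obtain ⟨l, hl, h⟩ := mem_ball.1 hx
  exact mem_ball.2 ⟨l, hl.trans hij, h⟩

lemma ball_step {N : ℕ} [NeZero N] {j : ℕ} {x : SL(2, ℤ) ⧸ Gam N} (hx : x ∈ ball N j) (b : Bool) :
    (letter b)⁻¹ • x ∈ ball N (j + 1) := by
  obtain ⟨l, hl, rfl⟩ := mem_ball.1 hx
  refine mem_ball.2 ⟨l ++ [b], by rw [List.length_append]; simpa using hl, ?_⟩
  rw [word_append, mul_inv_rev]
  have : word letter [b] = letter b := by rw [word]; simp
  rw [this]
  rfl

lemma ball_full {N : ℕ} [NeZero N] {j : ℕ} (h : ball N (j + 1) = ball N j) :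
    ball N j = Finset.univ := by
  classical
  have hmap : ∀ b, (ball N j).image (fun x => (letter b)⁻¹ • x) = ball N j := by
    intro b
    refine Finset.eq_of_subset_of_card_le ?_ ?_
    · intro x hx
      obtain ⟨y, hy, rfl⟩ := Finset.mem_image.1 hx
      rw [← h]
      exact ball_step hy b
    · rw [Finset.card_image_of_injective _ (MulAction.injective _)]
  have hst : ∀ b, letter b ∈ (MulAction.stabilizer SL(2, ℤ) ((ball N j : Finset _) :
      Set (SL(2, ℤ) ⧸ Gam N))) := by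
    intro b
    rw [← Subgroup.inv_mem_iff, MulAction.mem_stabilizer_iff]
    have := congrArg (fun s : Finset (SL(2, ℤ) ⧸ Gam N) => (s : Set (SL(2, ℤ) ⧸ Gam N))) (hmap b)
    rw [Finset.coe_image] at this
    exact this
  have htop := closure_letter hst
  rw [Finset.eq_univ_iff_forall]
  intro x
  obtain ⟨g, rfl⟩ := QuotientGroup.mk_surjective x
  have h1 : ((1 : SL(2, ℤ)) : SL(2, ℤ) ⧸ Gam N) ∈ ball N j :=
    mem_ball.2 ⟨[], by simp, by rw [word]; simp⟩
  have h2 : g ∈ (MulAction.stabilizer SL(2, ℤ) ((ball N j : Finset _) :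
      Set (SL(2, ℤ) ⧸ Gam N))) := by rw [htop]; trivial
  rw [MulAction.mem_stabilizer_iff] at h2
  have h3 : g • ((1 : SL(2, ℤ)) : SL(2, ℤ) ⧸ Gam N) ∈ g • ((ball N j : Finset _) :
      Set (SL(2, ℤ) ⧸ Gam N)) := Set.smul_mem_smul_set (Finset.mem_coe.2 h1)
  rw [h2, Finset.mem_coe] at h3
  have h4 : g • ((1 : SL(2, ℤ)) : SL(2, ℤ) ⧸ Gam N) = (g : SL(2, ℤ) ⧸ Gam N) := by
    change (((g * 1 : SL(2, ℤ))) : SL(2, ℤ) ⧸ Gam N) = _
    rw [mul_one]
  rwa [h4] at h3

lemma ball_card {N : ℕ} [NeZero N] (j : ℕ) : ball N j = Finset.univ ∨ j + 1 ≤ (ball N j).card := by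
  induction j with
  | zero =>
    right
    have h1 : ((1 : SL(2, ℤ)) : SL(2, ℤ) ⧸ Gam N) ∈ ball N 0 :=
      mem_ball.2 ⟨[], by simp, by rw [word]; simp⟩
    exact Finset.card_pos.2 ⟨_, h1⟩
  | succ j ih =>
    rcases ih with h | h
    · left
      exact Finset.univ_subset_iff.1 (h ▸ ball_mono (Nat.le_add_right j 1))
    · by_cases he : ball N (j + 1) = ball N j
      · left
        exact he.trans (ball_full he)
      · right
        have := Finset.card_lt_card ((ball_mono (Nat.le_add_right j 1)).ssubset_of_ne (Ne.symm he))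
        omega

/-- every coset contains a word with at most `N ^ 2` letters -/
theorem reach {N : ℕ} [NeZero N] {m : ℕ} (hm : N ^ 2 ≤ m) : Reach (Gam N) letter m := by
  have h1 : ball N m = Finset.univ := by
    rcases ball_card (N := N) m with h | h
    · exact h
    · have := Finset.card_le_univ (ball N m)
      have := card_le N
      omega
  intro g
  have h2 : (((g⁻¹ : SL(2, ℤ))) : SL(2, ℤ) ⧸ Gam N) ∈ ball N m := by
    rw [h1]
    exact Finset.mem_univ _
  obtain ⟨l, hl, h⟩ := mem_ball.1 h2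
  refine ⟨l, hl, word letter l * g⁻¹, ?_, by group⟩
  rw [QuotientGroup.eq, inv_inv] at h
  exact h

/-- a nonnegative matrix is a word -/
lemma nonneg_word : ∀ (n : ℕ) (g : SL(2, ℤ)), 0 ≤ g 0 0 → 0 ≤ g 0 1 → 0 ≤ g 1 0 → 0 ≤ g 1 1 →
    g 0 0 + g 0 1 + g 1 0 + g 1 1 ≤ n → ∃ l : List Bool, l.length ≤ n ∧ word letter l = g := by
  intro n
  induction n using Nat.strong_induction_on with
  | _ n ih =>
    intro g h00 h01 h10 h11 hn
    have hdet := det_eq g
    by_cases hA : g 1 0 ≤ g 0 0 ∧ g 1 1 ≤ g 0 1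
    · set g' : SL(2, ℤ) := (letter false)⁻¹ * g with hg'
      have e00 : g' 0 0 = g 0 0 - g 1 0 := by
        rw [hg', mul00, inv00, inv01]
        change 1 * g 0 0 + -1 * g 1 0 = _
        ring
      have e01 : g' 0 1 = g 0 1 - g 1 1 := by
        rw [hg', mul01, inv00, inv01]
        change 1 * g 0 1 + -1 * g 1 1 = _
        ring
      have e10 : g' 1 0 = g 1 0 := by
        rw [hg', mul10, inv10, inv11]
        change -0 * g 0 0 + 1 * g 1 0 = _
        ring
      have e11 : g' 1 1 = g 1 1 := by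
        rw [hg', mul11, inv10, inv11]
        change -0 * g 0 1 + 1 * g 1 1 = _
        ring
      have hpos : 1 ≤ g 1 0 + g 1 1 := by
        by_contra hc
        have h1 : g 1 0 = 0 := by omega
        have h2 : g 1 1 = 0 := by omega
        rw [h1, h2] at hdet
        simp at hdet
      have hn1 : 1 ≤ n := by omega
      obtain ⟨l, hl, hw⟩ := ih (n - 1) (by omega) g' (by omega) (by omega) (by omega) (by omega)
        (by omega)
      refine ⟨false :: l, by rw [List.length_cons]; omega, ?_⟩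
      rw [word_cons, hw, hg', mul_inv_cancel_left]
    · by_cases hB : g 0 0 ≤ g 1 0 ∧ g 0 1 ≤ g 1 1
      · set g' : SL(2, ℤ) := (letter true)⁻¹ * g with hg'
        have e00 : g' 0 0 = g 0 0 := by
          rw [hg', mul00, inv00, inv01]
          change 1 * g 0 0 + -0 * g 1 0 = _
          ring
        have e01 : g' 0 1 = g 0 1 := by
          rw [hg', mul01, inv00, inv01]
          change 1 * g 0 1 + -0 * g 1 1 = _
          ring
        have e10 : g' 1 0 = g 1 0 - g 0 0 := by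
          rw [hg', mul10, inv10, inv11]
          change -1 * g 0 0 + 1 * g 1 0 = _
          ring
        have e11 : g' 1 1 = g 1 1 - g 0 1 := by
          rw [hg', mul11, inv10, inv11]
          change -1 * g 0 1 + 1 * g 1 1 = _
          ring
        have hpos : 1 ≤ g 0 0 + g 0 1 := by
          by_contra hc
          have h1 : g 0 0 = 0 := by omega
          have h2 : g 0 1 = 0 := by omega
          rw [h1, h2] at hdet
          simp at hdet
        have hn1 : 1 ≤ n := by omega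
        obtain ⟨l, hl, hw⟩ := ih (n - 1) (by omega) g' (by omega) (by omega) (by omega) (by omega)
          (by omega)
        refine ⟨true :: l, by rw [List.length_cons]; omega, ?_⟩
        rw [word_cons, hw, hg', mul_inv_cancel_left]
      · refine ⟨[], by simp, ?_⟩
        have hC : g 1 0 < g 0 0 ∧ g 0 1 < g 1 1 := by
          by_contra hc
          have hD : g 0 0 < g 1 0 ∧ g 1 1 < g 0 1 := by omega
          nlinarith [hD.1, hD.2]
        have h1 : g 1 0 + g 0 1 ≤ 0 := by nlinarith [hC.1, hC.2]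
        have h2 : g 1 0 = 0 := by omega
        have h3 : g 0 1 = 0 := by omega
        rw [h2, h3, zero_mul, sub_zero] at hdet
        have h4 : g 0 0 = 1 := by nlinarith
        have h5 : g 1 1 = 1 := by rw [h4, one_mul] at hdet; exact hdet
        ext i j
        fin_cases i <;> fin_cases j
        · exact h4.symm
        · exact h3.symm
        · exact h2.symm
        · exact h5.symm

/-- residues in the interval from `1` to `r` -/
lemma exists_res (p r : ℤ) (hr : 0 < r) : ∃ k : ℤ, 1 ≤ p + k * r ∧ p + k * r ≤ r := by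
  refine ⟨-((p - 1) / r), ?_, ?_⟩
  · have := Int.emod_nonneg (p - 1) hr.ne'
    have := Int.emod_add_mul_ediv (p - 1) r
    nlinarith
  · have := Int.emod_lt_of_pos (p - 1) hr
    have := Int.emod_add_mul_ediv (p - 1) r
    nlinarith

/-- the values at the matrices with small lower left entries are the values at short words -/
lemma reduce_pos {N : ℕ} {φ : SL(2, ℤ) → ℝ} (hφ : IsCuspHom N φ) {γ : SL(2, ℤ)} (hγ : InG N γ)
    (h0 : 0 < γ 1 0) {m : ℕ} (hm : 4 * γ 1 0 ≤ m) :
    ∃ l : List Bool, l.length ≤ m ∧ word letter l ∈ Gam N ∧ φ (word letter l) = φ γ := by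
  obtain ⟨k, hk1, hk2⟩ := exists_res (γ 0 0) (γ 1 0) h0
  obtain ⟨j, hj1, hj2⟩ := exists_res (γ 1 1) (γ 1 0) h0
  set g : SL(2, ℤ) := T ^ k * γ * T ^ j with hg
  obtain ⟨t00, t01, t10, t11⟩ := T_pow k
  obtain ⟨u00, u01, u10, u11⟩ := T_pow j
  have e00 : g 0 0 = γ 0 0 + k * γ 1 0 := by
    rw [hg, mul00, mul00, mul01, t00, t01, u00, u10]
    ring
  have e10 : g 1 0 = γ 1 0 := by
    rw [hg, mul10, mul10, mul11, t10, t11, u00, u10]
    ring
  have e11 : g 1 1 = γ 1 1 + j * γ 1 0 := by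
    rw [hg, mul11, mul10, mul11, t10, t11, u01, u11]
    ring
  have hdet := det_eq g
  rw [← e00] at hk1 hk2
  rw [← e11] at hj1 hj2
  have hr := e10 ▸ h0
  rw [← e10] at hk2 hj2 hm
  have h01 : 0 ≤ g 0 1 := by
    by_contra hc
    have h1 : g 0 1 ≤ -1 := by omega
    nlinarith [mul_le_mul hk1 hj1 (by norm_num) (by omega)]
  have h01' : g 0 1 ≤ g 1 0 := by
    by_contra hc
    have h1 : g 1 0 + 1 ≤ g 0 1 := by omega
    have h2 : g 0 0 * g 1 1 ≤ g 1 0 * g 1 0 := mul_le_mul hk2 hj2 (by omega) (by omega)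
    nlinarith
  obtain ⟨l, hl, hw⟩ := nonneg_word m g (by omega) h01 (by omega) (by omega) (by omega)
  have hgN : InG N g := (((inG_T k).mul hγ).mul (inG_T j))
  have hT : ∀ k : ℤ, φ (T ^ k) = 0 := fun k => hφ.zero_of_lower (T_pow k).2.2.1
  refine ⟨l, hl, hw ▸ hgN, ?_⟩
  rw [hw, hg, hφ.map_mul _ _ ((inG_T k).mul hγ) (inG_T j), hφ.map_mul _ _ (inG_T k) hγ, hT, hT]
  ring

lemma reduce {N : ℕ} {φ : SL(2, ℤ) → ℝ} (hφ : IsCuspHom N φ) {γ : SL(2, ℤ)} (hγ : InG N γ)
    (h0 : γ 1 0 ≠ 0) {m : ℕ} (hm : 4 * |γ 1 0| ≤ m) :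
    ∃ l : List Bool, l.length ≤ m ∧ word letter l ∈ Gam N ∧ φ (word letter l) = φ γ := by
  rcases lt_or_gt_of_ne h0 with h | h
  · have h1 : InG N (-1 : SL(2, ℤ)) := by
      change (N : ℤ) ∣ (-1 : SL(2, ℤ)) 1 0
      simp
    have h2 : φ (-1) = 0 := hφ.zero_of_lower (by simp)
    have h3 : InG N (-γ) := by
      change (N : ℤ) ∣ (-γ) 1 0
      rw [Matrix.SpecialLinearGroup.coe_neg, Matrix.neg_apply]
      exact (dvd_neg).2 hγ
    have h4 : (-γ) 1 0 = -(γ 1 0) := by
      rw [Matrix.SpecialLinearGroup.coe_neg, Matrix.neg_apply]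
    obtain ⟨l, hl, hl1, hl2⟩ := reduce_pos hφ h3 (by rw [h4]; omega) (m := m) (by
      rw [h4]
      rwa [abs_of_neg h] at hm)
    refine ⟨l, hl, hl1, ?_⟩
    rw [hl2]
    have h5 : (-γ : SL(2, ℤ)) = (-1) * γ := by simp
    rw [h5, hφ.map_mul _ _ h1 hγ, h2, zero_add]
  · exact reduce_pos hφ hγ h (by rwa [abs_of_pos h] at hm)

end Pool.Agent.K4H33.ZO
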