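import Pool.Agent.K4H33.ZO.Main

/-!
# Closed words in arbitrary letters and subgroups
-/

set_option autoImplicit false

namespace Pool.Agent.K4H33.ZO

open Pointwise

section General

variable {G : Type} [Group G] {ι : Type} (s : ι → G)

/-- the product of a word -/
def wd (l : List ι) : G := (l.map s).prod

lemma wd_nil : wd s [] = 1 := by rw [wd]; simp

lemma wd_append (l l' : List ι) : wd s (l ++ l') = wd s l * wd s l' := by
  rw [wd, List.map_append, List.prod_append, wd, wd]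

lemma wd_single (i : ι) : wd s [i] = s i := by rw [wd]; simp

/-- the cosets of the words with at most `j` letters, from `g` -/
def bll (Γ : Subgroup G) (g : G) (j : ℕ) : Set (G ⧸ Γ) :=
  {x | ∃ l : List ι, l.length ≤ j ∧ (((g * wd s l)⁻¹ : G) : G ⧸ Γ) = x}

variable {s}

lemma bll_mono {Γ : Subgroup G} {g : G} {i j : ℕ} (hij : i ≤ j) : bll s Γ g i ⊆ bll s Γ g j := by
  rintro x ⟨l, hl, h⟩
  exact ⟨l, hl.trans hij, h⟩

lemma bll_step {Γ : Subgroup G} {g : G} {j : ℕ} {x : G ⧸ Γ} (hx : x ∈ bll s Γ g j) (i : ι) :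
    (s i)⁻¹ • x ∈ bll s Γ g (j + 1) := by
  obtain ⟨l, hl, rfl⟩ := hx
  refine ⟨l ++ [i], by rw [List.length_append]; simpa using hl, ?_⟩
  rw [wd_append, wd_single, ← mul_assoc, mul_inv_rev]
  rfl

lemma bll_nonempty {Γ : Subgroup G} (g : G) (j : ℕ) : (bll s Γ g j).Nonempty :=
  ⟨_, [], by simp, rfl⟩

lemma bll_full (hs : Subgroup.closure (Set.range s) = ⊤) {Γ : Subgroup G} [Finite (G ⧸ Γ)] {g : G}
    {j : ℕ} (h : bll s Γ g (j + 1) = bll s Γ g j) : bll s Γ g j = Set.univ := by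
  have hst : ∀ i, s i ∈ MulAction.stabilizer G (bll s Γ g j) := by
    intro i
    rw [← Subgroup.inv_mem_iff, MulAction.mem_stabilizer_iff]
    refine Set.eq_of_subset_of_ncard_le ?_ ?_ (Set.toFinite _)
    · rintro _ ⟨x, hx, rfl⟩
      rw [← h]
      exact bll_step hx i
    · rw [Set.ncard_smul_set]
  have htop : MulAction.stabilizer G (bll s Γ g j) = ⊤ := by
    rw [eq_top_iff, ← hs, Subgroup.closure_le]
    rintro _ ⟨i, rfl⟩
    exact hst i
  obtain ⟨y, hy⟩ := bll_nonempty (s := s) (Γ := Γ) g j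
  rw [Set.eq_univ_iff_forall]
  intro x
  obtain ⟨k, rfl⟩ := MulAction.exists_smul_eq G y x
  have h2 : k ∈ MulAction.stabilizer G (bll s Γ g j) := by rw [htop]; trivial
  rw [MulAction.mem_stabilizer_iff] at h2
  rw [← h2]
  exact Set.smul_mem_smul_set hy

lemma bll_card (hs : Subgroup.closure (Set.range s) = ⊤) {Γ : Subgroup G} [Finite (G ⧸ Γ)] (g : G)
    (j : ℕ) : bll s Γ g j = Set.univ ∨ j + 1 ≤ (bll s Γ g j).ncard := by
  induction j with
  | zero =>
    right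
    have := (Set.ncard_pos (Set.toFinite (bll s Γ g 0))).2 (bll_nonempty g 0)
    omega
  | succ j ih =>
    rcases ih with h | h
    · left
      exact Set.univ_subset_iff.1 (h ▸ bll_mono (Nat.le_add_right j 1))
    · by_cases he : bll s Γ g (j + 1) = bll s Γ g j
      · left
        exact he.trans (bll_full hs he)
      · right
        have := Set.ncard_lt_ncard ((bll_mono (s := s) (Γ := Γ) (g := g)
          (Nat.le_add_right j 1)).ssubset_of_ne (Ne.symm he)) (Set.toFinite _)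
        omega

/-- **every coset is reached from every coset by a positive word** -/
theorem reach_from (hs : Subgroup.closure (Set.range s) = ⊤) {Γ : Subgroup G}
    [Finite (G ⧸ Γ)] {V : ℕ} (hV : Γ.index ≤ V) (g k : G) :
    ∃ l : List ι, l.length ≤ V ∧ g * wd s l * k⁻¹ ∈ Γ := by
  have h1 : bll s Γ g V = Set.univ := by
    rcases bll_card hs (Γ := Γ) g V with h | h
    · exact h
    · have h2 : (bll s Γ g V).ncard ≤ Nat.card (G ⧸ Γ) := by
        rw [← Set.ncard_univ]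
        exact Set.ncard_le_ncard (Set.subset_univ _) (Set.toFinite _)
      have h3 : Γ.index = Nat.card (G ⧸ Γ) := rfl
      omega
  have h2 : ((k⁻¹ : G) : G ⧸ Γ) ∈ bll s Γ g V := by rw [h1]; trivial
  obtain ⟨l, hl, h⟩ := h2
  refine ⟨l, hl, ?_⟩
  rw [QuotientGroup.eq, inv_inv] at h
  exact h

variable {Γ : Subgroup G} {φ : G → ℝ}

lemma phi_one (hφ : ∀ γ ∈ Γ, ∀ δ ∈ Γ, φ (γ * δ) = φ γ + φ δ) : φ 1 = 0 := by
  have := hφ 1 Γ.one_mem 1 Γ.one_mem
  rw [mul_one] at this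
  linarith

lemma phi_inv (hφ : ∀ γ ∈ Γ, ∀ δ ∈ Γ, φ (γ * δ) = φ γ + φ δ) {γ : G} (hγ : γ ∈ Γ) :
    φ γ⁻¹ = -φ γ := by
  have := hφ γ hγ γ⁻¹ (Γ.inv_mem hγ)
  rw [mul_inv_cancel, phi_one hφ] at this
  linarith

lemma phi_pow (hφ : ∀ γ ∈ Γ, ∀ δ ∈ Γ, φ (γ * δ) = φ γ + φ δ) {γ : G} (hγ : γ ∈ Γ) (n : ℕ) :
    φ (γ ^ n) = n * φ γ := by
  induction n with
  | zero => rw [pow_zero, phi_one hφ]; simp
  | succ n ih =>
    rw [pow_succ, hφ _ (Γ.pow_mem hγ n) _ hγ, ih]
    push_cast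
    ring

/-- one edge -/
lemma edge_bound (hs : Subgroup.closure (Set.range s) = ⊤) [Finite (G ⧸ Γ)] {V : ℕ}
    (hV : Γ.index ≤ V) (hφ : ∀ γ ∈ Γ, ∀ δ ∈ Γ, φ (γ * δ) = φ γ + φ δ) {X : ℝ}
    (hX : ∀ l : List ι, l.length ≤ 2 * V + 1 → wd s l ∈ Γ → |φ (wd s l)| ≤ X) {u v : List ι}
    (hu : u.length ≤ V) (hv : v.length ≤ V) (i : ι) (h : wd s u * s i * (wd s v)⁻¹ ∈ Γ) :
    |φ (wd s u * s i * (wd s v)⁻¹)| ≤ 2 * X := by
  obtain ⟨q, hq, hq'⟩ := reach_from hs hV (wd s v) (1 : G)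
  rw [inv_one, mul_one] at hq'
  have e1 : wd s (u ++ [i] ++ q) = wd s u * s i * wd s q := by
    rw [wd_append, wd_append, wd_single]
  have e2 : wd s (v ++ q) = wd s v * wd s q := wd_append _ _ _
  have h1 : wd s (v ++ q) ∈ Γ := by rw [e2]; exact hq'
  have h2 : wd s (u ++ [i] ++ q) = wd s u * s i * (wd s v)⁻¹ * wd s (v ++ q) := by
    rw [e1, e2]
    group
  have h3 : wd s (u ++ [i] ++ q) ∈ Γ := by
    rw [h2]
    exact Γ.mul_mem h h1
  have h4 := hφ _ h _ h1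
  rw [← h2] at h4
  have h5 := hX (u ++ [i] ++ q) (by simp only [List.length_append, List.length_singleton]; omega) h3
  have h6 := hX (v ++ q) (by rw [List.length_append]; omega) h1
  have h7 : φ (wd s u * s i * (wd s v)⁻¹) = φ (wd s (u ++ [i] ++ q)) - φ (wd s (v ++ q)) := by
    linarith
  rw [h7]
  have := abs_sub (φ (wd s (u ++ [i] ++ q))) (φ (wd s (v ++ q)))
  linarith

/-- letters and their inverses -/
def sgn (s : ι → G) (p : ι × Bool) : G := if p.2 then s p.1 else (s p.1)⁻¹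

/-- **Positive closed words control all group words.** -/
theorem group_bound (hs : Subgroup.closure (Set.range s) = ⊤) [Finite (G ⧸ Γ)] {V : ℕ}
    (hV : Γ.index ≤ V) (hφ : ∀ γ ∈ Γ, ∀ δ ∈ Γ, φ (γ * δ) = φ γ + φ δ) {X : ℝ}
    (hX : ∀ l : List ι, l.length ≤ 2 * V + 1 → wd s l ∈ Γ → |φ (wd s l)| ≤ X)
    (w : List (ι × Bool)) : ∀ u : List ι, u.length ≤ V →
      wd s u * (wd (sgn s) w)⁻¹ ∈ Γ → |φ (wd s u * (wd (sgn s) w)⁻¹)| ≤ (2 * w.length + 1) * X := by
  have hX0 : 0 ≤ X := (abs_nonneg _).trans (hX [] (by simp) (by rw [wd_nil]; exact Γ.one_mem))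
  induction w using List.reverseRecOn with
  | nil =>
    intro u hu hΓ
    rw [wd_nil, inv_one, mul_one] at hΓ ⊢
    have := hX u (by omega) hΓ
    simpa using this
  | append_singleton w p ih =>
    intro u' hu' hΓ
    obtain ⟨u, hu, hu1⟩ := reach_from hs hV (1 : G) (wd (sgn s) w)
    rw [one_mul] at hu1
    have h1 := ih u hu hu1
    rw [wd_append, wd_single] at hΓ ⊢
    have key : wd s u' * (wd (sgn s) w * sgn s p)⁻¹ =
        (wd s u' * (sgn s p)⁻¹ * (wd s u)⁻¹) * (wd s u * (wd (sgn s) w)⁻¹) := by group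
    have hm : wd s u' * (sgn s p)⁻¹ * (wd s u)⁻¹ ∈ Γ := by
      have : wd s u' * (sgn s p)⁻¹ * (wd s u)⁻¹ =
          (wd s u' * (wd (sgn s) w * sgn s p)⁻¹) * (wd s u * (wd (sgn s) w)⁻¹)⁻¹ := by group
      rw [this]
      exact Γ.mul_mem hΓ (Γ.inv_mem hu1)
    have h2 : |φ (wd s u' * (sgn s p)⁻¹ * (wd s u)⁻¹)| ≤ 2 * X := by
      obtain ⟨i, b⟩ := p
      cases b
      · have e : (sgn s (i, false))⁻¹ = s i := by simp [sgn]
        rw [e] at hm ⊢
        exact edge_bound hs hV hφ hX hu' hu i hm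
      · have e : (sgn s (i, true)) = s i := by simp [sgn]
        rw [e] at hm ⊢
        have e2 : wd s u' * (s i)⁻¹ * (wd s u)⁻¹ = (wd s u * s i * (wd s u')⁻¹)⁻¹ := by group
        rw [e2] at hm ⊢
        have hm' := (Γ.inv_mem_iff).1 hm
        rw [phi_inv hφ hm', abs_neg]
        exact edge_bound hs hV hφ hX hu hu' i hm'
    rw [key, hφ _ hm _ hu1]
    have h3 := abs_add_le (φ (wd s u' * (sgn s p)⁻¹ * (wd s u)⁻¹))
      (φ (wd s u * (wd (sgn s) w)⁻¹))
    rw [List.length_append, List.length_singleton]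
    push_cast
    linarith

/-- the powers -/
theorem power_bound (hs : Subgroup.closure (Set.range s) = ⊤) {Γ₀ : Subgroup G} (hΓ : Γ ≤ Γ₀)
    [Finite (G ⧸ Γ)] {V : ℕ} (hV : Γ.index ≤ V)
    (hφ : ∀ γ ∈ Γ₀, ∀ δ ∈ Γ₀, φ (γ * δ) = φ γ + φ δ) {X : ℝ}
    (hX : ∀ l : List ι, l.length ≤ 2 * V + 1 → wd s l ∈ Γ → |φ (wd s l)| ≤ X)
    (w : List (ι × Bool)) (hw : wd (sgn s) w ∈ Γ₀) :
    |φ (wd (sgn s) w)| ≤ (2 * w.length + 1) * X := by
  have hX0 : 0 ≤ X := (abs_nonneg _).trans (hX [] (by simp) (by rw [wd_nil]; exact Γ.one_mem))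
  have hidx : Γ.index ≠ 0 := Subgroup.index_ne_zero_of_finite
  obtain ⟨n, hn, -, hmem⟩ := Subgroup.exists_pow_mem_of_index_ne_zero hidx (wd (sgn s) w)
  have hφ' : ∀ γ ∈ Γ, ∀ δ ∈ Γ, φ (γ * δ) = φ γ + φ δ := fun γ hγ δ hδ => hφ γ (hΓ hγ) δ (hΓ hδ)
  have hrep : ∀ n : ℕ, wd (sgn s) (List.replicate n w).flatten = wd (sgn s) w ^ n := by
    intro n
    induction n with
    | zero => rw [List.replicate_zero, List.flatten_nil, wd_nil, pow_zero]
    | succ n ih => rw [List.replicate_succ, List.flatten_cons, wd_append, ih, pow_succ']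
  have hlen : ((List.replicate n w).flatten).length = n * w.length := by
    rw [List.length_flatten, List.map_replicate, List.sum_replicate, smul_eq_mul]
  have h1 := group_bound hs hV hφ' hX (List.replicate n w).flatten [] (by simp) (by
    rw [wd_nil, one_mul, hrep]
    exact Γ.inv_mem hmem)
  rw [wd_nil, one_mul, hrep, phi_inv hφ' hmem, abs_neg, phi_pow hφ hw, abs_mul, Nat.abs_cast,
    hlen] at h1
  have hn0 : (1 : ℝ) ≤ n := by exact_mod_cast hn
  have h2 : (n : ℝ) * |φ (wd (sgn s) w)| ≤ n * ((2 * w.length + 1) * X) := by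
    refine h1.trans ?_
    push_cast
    have h3 : (0 : ℝ) ≤ w.length := Nat.cast_nonneg _
    nlinarith
  exact le_of_mul_le_mul_left h2 (by linarith)

end General

end Pool.Agent.K4H33.ZO
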