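import Pool.Agent.K4H33.ZO.Thin

/-!
# The Shimura map on semigroups and congruence subgroups
-/

set_option autoImplicit false

namespace Pool.Agent.K4H33.ZO

open Pool.Agent.TH133.SH Matrix.SpecialLinearGroup MatrixGroups ModularGroup

/-- There are constants `κ`, `C` such that the bound `C N ^ κ` holds for both coordinates of the
Shimura map of every newform of every level `N` at every element of `Γ' N` which is the product of at
most `3 N ^ A` of the matrices `s i`. -/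
def WordTest {ι : Type} (s : ι → SL(2, ℤ)) (Γ' : ℕ → Subgroup SL(2, ℤ)) (A : ℕ) : Prop :=
  ∃ κ : ℝ, 0 < κ ∧ ∃ C : ℝ, 0 < C ∧ ∀ N : ℕ, 1 ≤ N → ∀ a : ℕ → ℤ, IsNewform N a →
    ∀ Ω₁ Ω₂ : ℂ, IsBasis N a Ω₁ Ω₂ → ∀ l : List ι, l.length ≤ 3 * N ^ A →
      ∀ g : SL(2, ℤ), g = (l.map s).prod → g ∈ Γ' N →
        CoordBound a Ω₁ Ω₂ (g 0 0) (g 0 1) (g 1 0) (g 1 1) (C * (N : ℝ) ^ κ)

/-- group words for the letters `T`, `L` -/
lemma letters_words {ι : Type} {s : ι → SL(2, ℤ)} (hs : Subgroup.closure (Set.range s) = ⊤) :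
    ∃ K : ℕ, 1 ≤ K ∧ ∀ l : List Bool, ∃ w : List (ι × Bool), w.length ≤ K * l.length ∧
      wd (sgn s) w = word letter l := by
  have hinv : ∀ u : List (ι × Bool),
      wd (sgn s) ((u.map fun p => (p.1, !p.2)).reverse) = (wd (sgn s) u)⁻¹ := by
    intro u
    induction u with
    | nil => simp [wd]
    | cons p u ih =>
      rw [List.map_cons, List.reverse_cons, wd_append, ih, wd_single,
        show p :: u = [p] ++ u from rfl, wd_append, wd_single, mul_inv_rev]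
      congr 1
      obtain ⟨i, b⟩ := p
      cases b <;> simp [sgn]
  have h1 : ∀ g : SL(2, ℤ), ∃ w : List (ι × Bool), wd (sgn s) w = g := by
    intro g
    have hg : g ∈ Subgroup.closure (Set.range s) := by rw [hs]; trivial
    induction hg using Subgroup.closure_induction with
    | mem x hx =>
      obtain ⟨i, rfl⟩ := hx
      exact ⟨[(i, true)], by rw [wd_single]; rfl⟩
    | one => exact ⟨[], wd_nil _⟩
    | mul x y _ _ hx hy =>
      obtain ⟨u, rfl⟩ := hx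
      obtain ⟨v, rfl⟩ := hy
      exact ⟨u ++ v, wd_append _ _ _⟩
    | inv x _ hx =>
      obtain ⟨u, rfl⟩ := hx
      exact ⟨(u.map fun p => (p.1, !p.2)).reverse, hinv u⟩
  obtain ⟨w0, h0⟩ := h1 (letter false)
  obtain ⟨w1, h1'⟩ := h1 (letter true)
  refine ⟨w0.length + w1.length + 1, by omega, ?_⟩
  intro l
  induction l with
  | nil => exact ⟨[], by simp, by rw [wd_nil]; simp [word]⟩
  | cons b l ih =>
    obtain ⟨w, hw, hw'⟩ := ih
    cases b
    · refine ⟨w0 ++ w, ?_, ?_⟩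
      · rw [List.length_append, List.length_cons, Nat.mul_add]
        omega
      · rw [wd_append, h0, hw', word_cons]
    · refine ⟨w1 ++ w, ?_, ?_⟩
      · rw [List.length_append, List.length_cons, Nat.mul_add]
        omega
      · rw [wd_append, h1', hw', word_cons]

lemma entries_wd {ι : Type} [Fintype ι] (s : ι → SL(2, ℤ)) : ∃ M : ℕ, 1 ≤ M ∧ ∀ l : List ι,
    ∀ j k, |(l.map s).prod j k| ≤ (M : ℤ) ^ l.length := by
  refine ⟨2 * ∑ i, ∑ j, ∑ k, (s i j k).natAbs + 1, by omega, ?_⟩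
  set M : ℕ := 2 * ∑ i, ∑ j, ∑ k, (s i j k).natAbs + 1 with hM
  have hMs : ∀ i j k, 2 * |s i j k| ≤ (M : ℤ) := by
    intro i j k
    have h1 : (s i j k).natAbs ≤ ∑ k, (s i j k).natAbs :=
      Finset.single_le_sum (f := fun k => (s i j k).natAbs) (fun _ _ => Nat.zero_le _)
        (Finset.mem_univ k)
    have h2 : ∑ k, (s i j k).natAbs ≤ ∑ j, ∑ k, (s i j k).natAbs :=
      Finset.single_le_sum (f := fun j => ∑ k, (s i j k).natAbs) (fun _ _ => Nat.zero_le _)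
        (Finset.mem_univ j)
    have h3 : ∑ j, ∑ k, (s i j k).natAbs ≤ ∑ i, ∑ j, ∑ k, (s i j k).natAbs :=
      Finset.single_le_sum (f := fun i => ∑ j, ∑ k, (s i j k).natAbs) (fun _ _ => Nat.zero_le _)
        (Finset.mem_univ i)
    have h4 : |s i j k| = ((s i j k).natAbs : ℤ) := Int.abs_eq_natAbs _
    have h5 : 2 * (s i j k).natAbs ≤ M := by omega
    rw [h4]
    exact_mod_cast h5
  intro l
  induction l with
  | nil =>
    intro j k
    fin_cases j <;> fin_cases k <;> simp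
  | cons i l ih =>
    intro j k
    have e : ((i :: l).map s).prod j k = s i j 0 * (l.map s).prod 0 k +
        s i j 1 * (l.map s).prod 1 k := by
      rw [List.map_cons, List.prod_cons, coe_mul, Matrix.mul_apply, Fin.sum_univ_two]
    rw [e, List.length_cons, pow_succ]
    have h1 := abs_add_le (s i j 0 * (l.map s).prod 0 k) (s i j 1 * (l.map s).prod 1 k)
    rw [abs_mul, abs_mul] at h1
    have h2 := mul_le_mul (hMs i j 0) (ih 0 k) (abs_nonneg _) (by positivity)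
    have h3 := mul_le_mul (hMs i j 1) (ih 1 k) (abs_nonneg _) (by positivity)
    nlinarith

theorem test_of_log {ι : Type} [Fintype ι] (s : ι → SL(2, ℤ)) (Γ' : ℕ → Subgroup SL(2, ℤ)) (A : ℕ)
    (hΓ : ∀ N : ℕ, 1 ≤ N → Γ' N ≤ Gam N) (h : LogarithmicGrowth) : WordTest s Γ' A := by
  obtain ⟨κ, hκ, C, hC, h⟩ := h
  obtain ⟨M, hM, hs⟩ := entries_wd s
  refine ⟨κ + A, by positivity, C * (1 + 3 * M), by positivity, ?_⟩
  intro N hN a ha Ω₁ Ω₂ hb l hl g hg hgΓ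
  have hdet : g 0 0 * g 1 1 - g 0 1 * g 1 0 = 1 := det_eq g
  have hgm : mk (g 0 0) (g 0 1) (g 1 0) (g 1 1) hdet = g := by
    ext i j
    fin_cases i <;> fin_cases j <;> rfl
  have hN0 : (0 : ℝ) < N := by exact_mod_cast hN
  have hN1 : (1 : ℝ) ≤ N := by exact_mod_cast hN
  by_cases h0 : g 1 0 = 0
  · refine coord_zero hb hdet ?_ (by positivity)
    rw [hgm]
    exact Hs_zero_of_lower ha.toIsForm h0
  · have h1 := h N hN a ha Ω₁ Ω₂ hb (g 0 0) (g 0 1) (g 1 0) (g 1 1) hdet (hΓ N hN hgΓ) h0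
    intro m k hmk
    have h2 := h1 m k hmk
    have h3 : Real.log |((g 1 0 : ℤ) : ℝ)| ≤ l.length * M := by
      have h4 : |g 1 0| ≤ (M : ℤ) ^ l.length := by
        rw [hg]
        exact hs l 1 0
      have h5 : |((g 1 0 : ℤ) : ℝ)| ≤ (M : ℝ) ^ l.length := by exact_mod_cast h4
      have h6 : 0 < |((g 1 0 : ℤ) : ℝ)| := by
        rw [abs_pos]
        exact_mod_cast h0
      have h7 := Real.log_le_log h6 h5
      rw [Real.log_pow] at h7
      have h8 : Real.log (M : ℝ) ≤ M := Real.log_le_self (Nat.cast_nonneg _)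
      have h9 : (0 : ℝ) ≤ l.length := Nat.cast_nonneg _
      nlinarith
    have h4 : (l.length : ℝ) ≤ 3 * (N : ℝ) ^ A := by exact_mod_cast hl
    have h5 : (1 : ℝ) ≤ (N : ℝ) ^ A := one_le_pow₀ hN1
    have hM0 : (0 : ℝ) ≤ M := Nat.cast_nonneg _
    have h6 : C * (N : ℝ) ^ κ * (1 + Real.log |((g 1 0 : ℤ) : ℝ)|) ≤
        C * (1 + 3 * M) * (N : ℝ) ^ (κ + A) := by
      rw [Real.rpow_add hN0, Real.rpow_natCast]
      have h7 : 1 + Real.log |((g 1 0 : ℤ) : ℝ)| ≤ (1 + 3 * M) * (N : ℝ) ^ A := by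
        have h8 : (l.length : ℝ) * M ≤ 3 * (N : ℝ) ^ A * M := mul_le_mul_of_nonneg_right h4 hM0
        nlinarith
      calc C * (N : ℝ) ^ κ * (1 + Real.log |((g 1 0 : ℤ) : ℝ)|)
          ≤ C * (N : ℝ) ^ κ * ((1 + 3 * M) * (N : ℝ) ^ A) := by gcongr
        _ = _ := by ring
    exact ⟨h2.1.trans h6, h2.2.trans h6⟩

theorem entries_of_test {ι : Type} {s : ι → SL(2, ℤ)} (hs : Subgroup.closure (Set.range s) = ⊤)
    {Γ' : ℕ → Subgroup SL(2, ℤ)} {A : ℕ} (hΓ : ∀ N : ℕ, 1 ≤ N → Γ' N ≤ Gam N)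
    (hidx : ∀ N : ℕ, 1 ≤ N → (Γ' N).index ≠ 0 ∧ (Γ' N).index ≤ N ^ A) (h : WordTest s Γ' A) :
    EntriesAtMost 2 := by
  obtain ⟨κ, hκ, C, hC, h⟩ := h
  obtain ⟨K, hK, hKw⟩ := letters_words hs
  refine ⟨κ + 2, by positivity, 9 * K * C, by positivity, ?_⟩
  intro N hN a ha Ω₁ Ω₂ hb p q r t hdet hr _ _ hrb _
  have hN0 : (0 : ℝ) < N := by exact_mod_cast hN
  have hN1 : (1 : ℝ) ≤ N := by exact_mod_cast hN
  have hX : (0 : ℝ) ≤ C * (N : ℝ) ^ κ := by positivity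
  set γ := mk p q r t hdet with hγdef
  have hγ : InG N γ := hr
  by_cases h0 : r = 0
  · refine coord_zero hb hdet ?_ (by positivity)
    exact Hs_zero_of_lower ha.toIsForm h0
  have hfin : Finite (SL(2, ℤ) ⧸ Γ' N) := by
    have := (hidx N hN).1
    exact Nat.finite_of_card_ne_zero this
  have hV1 : 1 ≤ N ^ A := Nat.one_le_pow _ _ hN
  have key : ∀ L : ℂ →ₗ[ℝ] ℝ, (∀ l : List ι, l.length ≤ 2 * N ^ A + 1 → wd s l ∈ Γ' N →
      |L (Hs a (wd s l))| ≤ C * (N : ℝ) ^ κ) →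
        |L (Hs a γ)| ≤ 9 * K * C * (N : ℝ) ^ (κ + 2) := by
    intro L hL
    have hφ := isCuspHom ha.toIsForm L
    have hr2 : |γ 1 0| ≤ (N : ℤ) ^ 2 := hrb
    obtain ⟨l, hl, hl1, hl2⟩ := reduce hφ hγ h0 (m := 4 * N ^ 2) (by push_cast; linarith)
    obtain ⟨w, hw, hw'⟩ := hKw l
    have h1 := power_bound hs (hΓ N hN) (hidx N hN).2 (φ := fun g => L (Hs a g))
      (fun γ hγ δ hδ => hφ.map_mul γ δ hγ hδ) hL w (by rw [hw']; exact hl1)
    rw [hw'] at h1
    have h2 : |L (Hs a γ)| ≤ (2 * w.length + 1) * (C * (N : ℝ) ^ κ) := by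
      rw [← hl2]
      exact h1
    refine h2.trans ?_
    have h3 : (w.length : ℝ) ≤ K * (4 * (N : ℝ) ^ 2) := by
      have h4 : w.length ≤ K * (4 * N ^ 2) := hw.trans (Nat.mul_le_mul_left _ hl)
      exact_mod_cast h4
    have h4 : (1 : ℝ) ≤ (N : ℝ) ^ 2 := one_le_pow₀ hN1
    have h5 : (1 : ℝ) ≤ K := by exact_mod_cast hK
    have h6 : (2 * (w.length : ℝ) + 1) ≤ 9 * K * (N : ℝ) ^ 2 := by nlinarith
    have h7 : (N : ℝ) ^ (κ + 2) = (N : ℝ) ^ κ * (N : ℝ) ^ 2 := by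
      rw [Real.rpow_add hN0, Real.rpow_two]
    calc (2 * (w.length : ℝ) + 1) * (C * (N : ℝ) ^ κ)
        ≤ 9 * K * (N : ℝ) ^ 2 * (C * (N : ℝ) ^ κ) := mul_le_mul_of_nonneg_right h6 hX
      _ = _ := by rw [h7]; ring
  have hcoord : ∀ l : List ι, l.length ≤ 2 * N ^ A + 1 → wd s l ∈ Γ' N →
      |L₁ Ω₁ Ω₂ (Hs a (wd s l))| ≤ C * (N : ℝ) ^ κ ∧ |L₂ Ω₂ (Hs a (wd s l))| ≤ C * (N : ℝ) ^ κ := by
    intro l hl hlΓ
    obtain ⟨m', n', hmn'⟩ := lattice ha.toIsForm hb (z := Hs a (wd s l)) ⟨_, hΓ N hN hlΓ, rfl⟩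
    have h1 := h N hN a ha Ω₁ Ω₂ hb l (by omega) (wd s l) rfl hlΓ m' n' hmn'
    rw [hmn', L₁_apply hb, L₂_apply hb]
    exact h1
  have h1 := key (L₁ Ω₁ Ω₂) (fun l hl hlΓ => (hcoord l hl hlΓ).1)
  have h2 := key (L₂ Ω₂) (fun l hl hlΓ => (hcoord l hl hlΓ).2)
  intro m n hmn
  have hHγ : Hs a γ = (m : ℂ) * Ω₁ + (n : ℂ) * Ω₂ := hmn
  rw [hHγ, L₁_apply hb] at h1
  rw [hHγ, L₂_apply hb] at h2
  exact ⟨h1, h2⟩

/-- **Semigroups and subgroups.** -/
theorem entries_iff_test {ι : Type} [Fintype ι] {s : ι → SL(2, ℤ)}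
    (hs : Subgroup.closure (Set.range s) = ⊤) {Γ' : ℕ → Subgroup SL(2, ℤ)} {A : ℕ}
    (hΓ : ∀ N : ℕ, 1 ≤ N → Γ' N ≤ Gam N)
    (hidx : ∀ N : ℕ, 1 ≤ N → (Γ' N).index ≠ 0 ∧ (Γ' N).index ≤ N ^ A) :
    EntriesAtMost 2 ↔ WordTest s Γ' A :=
  ⟨fun h => test_of_log s Γ' A hΓ ((shimura_tfae.out 0 2).1 h), entries_of_test hs hΓ hidx⟩

/-- The two matrices `(1 1; 1 2)` and `(1 2; 1 3)`. -/
def thin (b : Bool) : SL(2, ℤ) := if b then mk 1 2 1 3 (by norm_num) else mk 1 1 1 2 (by norm_num)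

lemma thin_T : (thin false)⁻¹ * thin true = T := by
  ext i j
  fin_cases i <;> fin_cases j <;> rfl

lemma thin_S : T⁻¹ * (thin false * T⁻¹) * T⁻¹ = S := by
  ext i j
  fin_cases i <;> fin_cases j <;> rfl

lemma thin_closure : Subgroup.closure (Set.range thin) = ⊤ := by
  set H := Subgroup.closure (Set.range thin) with hH
  have h : ∀ b, thin b ∈ H := fun b => Subgroup.subset_closure ⟨b, rfl⟩
  have hT : T ∈ H := by
    rw [← thin_T]
    exact H.mul_mem (H.inv_mem (h _)) (h _)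
  rw [eq_top_iff, ← SpecialLinearGroup.SL2Z_generators, Subgroup.closure_le]
  rintro g (rfl | rfl)
  · rw [SetLike.mem_coe, ← thin_S]
    exact H.mul_mem (H.mul_mem (H.inv_mem hT) (H.mul_mem (h _) (H.inv_mem hT))) (H.inv_mem hT)
  · exact hT

/-- The principal congruence subgroup modulo `N ^ j`. -/
def principal (j N : ℕ) : Subgroup SL(2, ℤ) := CongruenceSubgroup.Gamma (N ^ j)

lemma principal_le {j N : ℕ} (hj : 1 ≤ j) : principal j N ≤ Gam N := by
  intro g hg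
  rw [principal, CongruenceSubgroup.Gamma_mem] at hg
  have h1 := (ZMod.intCast_zmod_eq_zero_iff_dvd _ _).1 hg.2.2.1
  refine Dvd.dvd.trans ?_ h1
  push_cast
  exact dvd_pow_self _ (by omega)

lemma principal_index {j N : ℕ} (hN : 1 ≤ N) :
    (principal j N).index ≠ 0 ∧ (principal j N).index ≤ N ^ (4 * j) := by
  have hM : 0 < N ^ j := Nat.pow_pos hN
  have : NeZero (N ^ j) := ⟨hM.ne'⟩
  have h1 : (principal j N).index =
      Nat.card (Matrix.SpecialLinearGroup.map (n := Fin 2) (Int.castRingHom (ZMod (N ^ j)))).range :=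
    Subgroup.index_ker _
  have h2 : Nat.card (Matrix.SpecialLinearGroup.map (n := Fin 2)
      (Int.castRingHom (ZMod (N ^ j)))).range ≤ N ^ (4 * j) := by
    have h3 := Nat.card_le_card_of_injective
      (fun g : (Matrix.SpecialLinearGroup.map (n := Fin 2)
        (Int.castRingHom (ZMod (N ^ j)))).range => ((g : SL(2, ZMod (N ^ j))) :
          Matrix (Fin 2) (Fin 2) (ZMod (N ^ j))))
      (fun g h hgh => Subtype.ext (Subtype.ext hgh))
    refine h3.trans ?_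
    rw [Matrix, Nat.card_fun, Nat.card_fun, Nat.card_eq_fintype_card, Nat.card_eq_fintype_card,
      ZMod.card, Fintype.card_fin, ← pow_mul, ← pow_mul]
    exact le_of_eq (by congr 1; ring)
  rw [h1]
  exact ⟨Nat.card_ne_zero.2 ⟨⟨1⟩, inferInstance⟩, h2⟩

end Pool.Agent.K4H33.ZO
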