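import Mathlib

/-!
# Averages over words in induced representations
-/

set_option autoImplicit false
set_option linter.unusedSectionVars false

namespace Pool.Agent.K4H33.ZO

variable {G : Type} [Group G] (Γ : Subgroup G) [Fintype (G ⧸ Γ)]

/-- equivariant functions -/
def Equi (χ h : G → ℂ) : Prop := ∀ γ ∈ Γ, ∀ g, h (γ * g) = χ γ * h g

/-- the vector of the values of `h` at representatives of the cosets -/
noncomputable def vec (h : G → ℂ) : EuclideanSpace ℂ (G ⧸ Γ) :=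
  WithLp.toLp 2 (fun x => h (x.out)⁻¹)

/-- right translation -/
def tr (s : G) (h : G → ℂ) : G → ℂ := fun g => h (g * s)

lemma vec_sub (h k : G → ℂ) : vec Γ (h - k) = vec Γ h - vec Γ k := rfl
lemma vec_add (h k : G → ℂ) : vec Γ (h + k) = vec Γ h + vec Γ k := rfl
lemma vec_smul (c : ℂ) (h : G → ℂ) : vec Γ (c • h) = c • vec Γ h := rfl

lemma vec_sq (h : G → ℂ) : ‖vec Γ h‖ ^ 2 = ∑ x : G ⧸ Γ, ‖h (x.out)⁻¹‖ ^ 2 := by
  rw [EuclideanSpace.norm_sq_eq]
  rfl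

variable {Γ} {χ h k : G → ℂ}

lemma Equi.sub (hh : Equi Γ χ h) (hk : Equi Γ χ k) : Equi Γ χ (h - k) := by
  intro γ hγ g
  rw [Pi.sub_apply, Pi.sub_apply, hh γ hγ g, hk γ hγ g]
  ring

lemma Equi.add (hh : Equi Γ χ h) (hk : Equi Γ χ k) : Equi Γ χ (h + k) := by
  intro γ hγ g
  rw [Pi.add_apply, Pi.add_apply, hh γ hγ g, hk γ hγ g]
  ring

lemma Equi.smul (hh : Equi Γ χ h) (c : ℂ) : Equi Γ χ (c • h) := by
  intro γ hγ g
  rw [Pi.smul_apply, Pi.smul_apply, hh γ hγ g, smul_eq_mul, smul_eq_mul]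
  ring

lemma Equi.tr (hh : Equi Γ χ h) (s : G) : Equi Γ χ (tr s h) := by
  intro γ hγ g
  rw [ZO.tr, ZO.tr, mul_assoc, hh γ hγ]

variable (hχ : ∀ γ ∈ Γ, ‖χ γ‖ = 1)
include hχ

lemma Equi.norm_out (hh : Equi Γ χ h) (g : G) :
    ‖h (((g⁻¹ : G) : G ⧸ Γ).out)⁻¹‖ = ‖h g‖ := by
  obtain ⟨γ, hγ⟩ := QuotientGroup.mk_out_eq_mul Γ g⁻¹
  rw [hγ, mul_inv_rev, inv_inv, hh _ (Γ.inv_mem γ.2), norm_mul, hχ _ (Γ.inv_mem γ.2), one_mul]

lemma Equi.norm_tr (hh : Equi Γ χ h) (s : G) : ‖vec Γ (ZO.tr s h)‖ = ‖vec Γ h‖ := by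
  have h1 : ‖vec Γ (ZO.tr s h)‖ ^ 2 = ‖vec Γ h‖ ^ 2 := by
    rw [vec_sq, vec_sq]
    refine Fintype.sum_equiv (MulAction.toPerm s⁻¹) _ _ fun x => ?_
    rw [ZO.tr, ← hh.norm_out hχ]
    congr 4
    rw [mul_inv_rev, inv_inv, MulAction.toPerm_apply]
    conv_rhs => rw [← QuotientGroup.out_eq' x]
    rfl
  exact (pow_left_inj₀ (norm_nonneg _) (norm_nonneg _) two_ne_zero).1 h1

lemma Equi.le_norm (hh : Equi Γ χ h) (g : G) : ‖h g‖ ≤ ‖vec Γ h‖ := by
  rw [← hh.norm_out hχ]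
  exact PiLp.norm_apply_le (vec Γ h) ((g⁻¹ : G) : G ⧸ Γ)

omit hχ in
/-- some coset has a large value -/
lemma exists_large (h : G → ℂ) :
    ∃ g : G, ‖vec Γ h‖ ^ 2 ≤ Fintype.card (G ⧸ Γ) * ‖h g‖ ^ 2 := by
  have hne : (Finset.univ : Finset (G ⧸ Γ)).Nonempty := ⟨((1 : G) : G ⧸ Γ), Finset.mem_univ _⟩
  have hc : (0 : ℝ) < Fintype.card (G ⧸ Γ) := by exact_mod_cast Finset.card_pos.2 hne
  obtain ⟨x, -, hx⟩ := Finset.exists_le_of_sum_le hne
    (f := fun _ => ‖vec Γ h‖ ^ 2 / Fintype.card (G ⧸ Γ)) (g := fun x => ‖h (x.out)⁻¹‖ ^ 2) (by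
      rw [Finset.sum_const, Finset.card_univ, nsmul_eq_mul, mul_div_cancel₀ _ hc.ne', vec_sq])
  refine ⟨(x.out)⁻¹, ?_⟩
  rw [div_le_iff₀ hc] at hx
  linarith

/-- the average of the translates by the two letters -/
noncomputable def avg (s : Bool → G) (h : G → ℂ) : G → ℂ :=
  (2⁻¹ : ℂ) • (tr (s false) h + tr (s true) h)

omit hχ in
lemma Equi.avg (hh : Equi Γ χ h) (s : Bool → G) : Equi Γ χ (avg s h) :=
  ((hh.tr _).add (hh.tr _)).smul _

omit hχ in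
lemma avg_apply (s : Bool → G) (h : G → ℂ) (g : G) :
    avg s h g = (∑ b, h (g * s b)) / 2 := by
  rw [avg, Pi.smul_apply, Pi.add_apply, tr, tr, smul_eq_mul, Fintype.sum_bool]
  ring

lemma Equi.norm_avg (hh : Equi Γ χ h) (s : Bool → G) :
    ‖vec Γ (ZO.avg s h)‖ ^ 2 + ‖vec Γ (ZO.tr (s false) h) - vec Γ (ZO.tr (s true) h)‖ ^ 2 / 4 =
      ‖vec Γ h‖ ^ 2 := by
  have h1 := parallelogram_law_with_norm ℂ (vec Γ (ZO.tr (s false) h)) (vec Γ (ZO.tr (s true) h))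
  rw [hh.norm_tr hχ, hh.norm_tr hχ] at h1
  rw [ZO.avg, vec_smul, vec_add, norm_smul, norm_inv, Complex.norm_ofNat]
  nlinarith

lemma Equi.norm_avg_le (hh : Equi Γ χ h) (s : Bool → G) :
    ‖vec Γ (ZO.avg s h)‖ ≤ ‖vec Γ h‖ := by
  have h1 := hh.norm_avg hχ s
  have h2 : 0 ≤ ‖vec Γ (ZO.tr (s false) h) - vec Γ (ZO.tr (s true) h)‖ ^ 2 := by positivity
  exact (pow_le_pow_iff_left₀ (norm_nonneg _) (norm_nonneg _) two_ne_zero).1 (by linarith)

/-- iterated averages -/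
noncomputable def iavg (s : Bool → G) (h : G → ℂ) : ℕ → G → ℂ
  | 0 => h
  | n + 1 => avg s (iavg s h n)

omit hχ in
lemma Equi.iavg (hh : Equi Γ χ h) (s : Bool → G) (n : ℕ) : Equi Γ χ (iavg s h n) := by
  induction n with
  | zero => exact hh
  | succ n ih => exact ih.avg s

omit hχ in
lemma iavg_add (s : Bool → G) (h : G → ℂ) (m n : ℕ) :
    iavg s h (m + n) = iavg s (iavg s h m) n := by
  induction n with
  | zero => rfl
  | succ n ih =>
    change avg s (iavg s h (m + n)) = _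
    rw [ih]
    rfl

lemma Equi.norm_iavg_anti (hh : Equi Γ χ h) (s : Bool → G) {m n : ℕ} (hmn : m ≤ n) :
    ‖vec Γ (ZO.iavg s h n)‖ ≤ ‖vec Γ (ZO.iavg s h m)‖ := by
  induction n, hmn using Nat.le_induction with
  | base => exact le_rfl
  | succ n _ ih => exact ((hh.iavg s n).norm_avg_le hχ s).trans ih

/-- a step -/
lemma Equi.step (hh : Equi Γ χ h) (s : Bool → G) (b : Bool) {D : ℝ}
    (hD : ‖vec Γ h‖ ^ 2 - ‖vec Γ (ZO.avg s h)‖ ^ 2 ≤ D) :
    ‖vec Γ (ZO.tr (s b) h - ZO.avg s h)‖ ≤ √D := by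
  have h1 := hh.norm_avg hχ s
  have h2 : vec Γ (ZO.tr (s b) h - ZO.avg s h) =
      (if b then (-2⁻¹ : ℂ) else 2⁻¹) • (vec Γ (ZO.tr (s false) h) - vec Γ (ZO.tr (s true) h)) := by
    rw [vec_sub, ZO.avg, vec_smul, vec_add]
    cases b
    · simp only [Bool.false_eq_true, if_false]
      module
    · simp only [if_true]
      module
  have h3 : ‖vec Γ (ZO.tr (s b) h - ZO.avg s h)‖ =
      ‖vec Γ (ZO.tr (s false) h) - vec Γ (ZO.tr (s true) h)‖ / 2 := by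
    rw [h2, norm_smul]
    cases b
    · simp only [Bool.false_eq_true, if_false, norm_inv, Complex.norm_ofNat]
      ring
    · simp only [if_true, norm_neg, norm_inv, Complex.norm_ofNat]
      ring
  rw [h3]
  refine Real.le_sqrt_of_sq_le ?_
  linarith [h1, hD, (by ring : (‖vec Γ (ZO.tr (s false) h) - vec Γ (ZO.tr (s true) h)‖ / 2) ^ 2 =
    ‖vec Γ (ZO.tr (s false) h) - vec Γ (ZO.tr (s true) h)‖ ^ 2 / 4)]

omit hχ in
lemma tr_mul (a b : G) (h : G → ℂ) : tr (a * b) h = tr a (tr b h) := by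
  funext g
  rw [tr, tr, tr, mul_assoc]

/-- the product of a word -/
def word (s : Bool → G) (l : List Bool) : G := (l.map s).prod

omit hχ in
lemma word_cons (s : Bool → G) (b : Bool) (l : List Bool) :
    word s (b :: l) = s b * word s l := by
  rw [word, List.map_cons, List.prod_cons, word]

omit hχ in
lemma word_append (s : Bool → G) (l l' : List Bool) :
    word s (l ++ l') = word s l * word s l' := by
  rw [word, List.map_append, List.prod_append, word, word]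

/-- the translates by words are close to the averages -/
lemma Equi.close (hh : Equi Γ χ h) (s : Bool → G) {m : ℕ} {D : ℝ}
    (hD : ‖vec Γ h‖ ^ 2 - ‖vec Γ (ZO.iavg s h m)‖ ^ 2 ≤ D) (l : List Bool) (hl : l.length ≤ m) :
    ‖vec Γ (ZO.tr (word s l) h - ZO.iavg s h l.length)‖ ≤ l.length * √D := by
  induction l with
  | nil =>
    have : ZO.tr (word s []) h - ZO.iavg s h ([] : List Bool).length = 0 := by
      funext g
      change h (g * 1) - h g = 0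
      rw [mul_one, sub_self]
    have h0 : vec Γ (0 : G → ℂ) = 0 := rfl
    rw [this, h0, norm_zero]
    simp
  | cons b l ih =>
    rw [List.length_cons] at hl
    have ih := ih (by omega)
    have e1 : ZO.tr (word s (b :: l)) h - ZO.iavg s h (b :: l).length =
        ZO.tr (s b) (ZO.tr (word s l) h - ZO.iavg s h l.length) +
          (ZO.tr (s b) (ZO.iavg s h l.length) - ZO.avg s (ZO.iavg s h l.length)) := by
      rw [word_cons, tr_mul]
      funext g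
      simp only [Pi.sub_apply, Pi.add_apply, ZO.tr]
      change _ - ZO.avg s (ZO.iavg s h l.length) g = _
      ring
    rw [e1, vec_add]
    refine (norm_add_le _ _).trans ?_
    have h1 : Equi Γ χ (ZO.tr (word s l) h - ZO.iavg s h l.length) := (hh.tr _).sub (hh.iavg s _)
    rw [h1.norm_tr hχ]
    have h2 := (hh.iavg s l.length).step hχ s b (D := D) (by
      have h3 := hh.norm_iavg_anti hχ s (m := 0) (n := l.length) (Nat.zero_le _)
      have h4 := hh.norm_iavg_anti hχ s (m := l.length + 1) (n := m) hl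
      change ‖_‖ ≤ ‖vec Γ h‖ at h3
      change ‖_‖ ≤ ‖vec Γ (ZO.avg s (ZO.iavg s h l.length))‖ at h4
      have h5 := pow_le_pow_left₀ (norm_nonneg _) h3 2
      have h6 := pow_le_pow_left₀ (norm_nonneg _) h4 2
      linarith)
    rw [List.length_cons]
    push_cast
    linarith

/-- **the values at words are close to the value at `1`** -/
theorem Equi.value (hh : Equi Γ χ h) (s : Bool → G) (ht : s false ∈ Γ) (ht1 : χ (s false) = 1)
    {m : ℕ} {D : ℝ} (hD : ‖vec Γ h‖ ^ 2 - ‖vec Γ (ZO.iavg s h m)‖ ^ 2 ≤ D) (l : List Bool)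
    (hl : l.length ≤ m) : ‖h (word s l) - h 1‖ ≤ 2 * m * √D := by
  have hpad : ∀ (k : ℕ) (g : G), h (word s (List.replicate k false) * g) = h g := by
    intro k
    induction k with
    | zero =>
      intro g
      change h (1 * g) = h g
      rw [one_mul]
    | succ k ih =>
      intro g
      rw [List.replicate_succ, word_cons, mul_assoc, hh _ ht, ht1, one_mul, ih]
  have key : ∀ l : List Bool, l.length = m → ‖h (word s l) - ZO.iavg s h m 1‖ ≤ m * √D := by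
    intro l hl
    have h1 := hh.close hχ s hD l hl.le
    rw [hl] at h1
    have h2 : Equi Γ χ (ZO.tr (word s l) h - ZO.iavg s h m) := (hh.tr _).sub (hh.iavg s _)
    have h3 := h2.le_norm hχ 1
    rw [Pi.sub_apply, ZO.tr, one_mul] at h3
    exact h3.trans h1
  have h1 := key (List.replicate (m - l.length) false ++ l) (by
    rw [List.length_append, List.length_replicate]
    omega)
  have h2 := key (List.replicate m false) (by rw [List.length_replicate])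
  rw [word_append, hpad] at h1
  have h3 := hpad m 1
  rw [mul_one] at h3
  rw [h3] at h2
  calc ‖h (word s l) - h 1‖ = ‖(h (word s l) - ZO.iavg s h m 1) - (h 1 - ZO.iavg s h m 1)‖ := by
        congr 1
        ring
    _ ≤ ‖h (word s l) - ZO.iavg s h m 1‖ + ‖h 1 - ZO.iavg s h m 1‖ := norm_sub_le _ _
    _ ≤ m * √D + m * √D := add_le_add h1 h2
    _ = 2 * m * √D := by ring

/-- every coset contains a word with at most `m` letters -/
def Reach (Γ : Subgroup G) (s : Bool → G) (m : ℕ) : Prop :=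
  ∀ g : G, ∃ l : List Bool, l.length ≤ m ∧ ∃ γ ∈ Γ, word s l = γ * g

/-- **Contraction.** -/
theorem Equi.contract (hh : Equi Γ χ h) (s : Bool → G) (ht : s false ∈ Γ)
    (ht1 : χ (s false) = 1) {m : ℕ} (hm : 0 < m) (hr : Reach Γ s m) {l : List Bool}
    (hl : l.length ≤ m) (hlΓ : word s l ∈ Γ) {η : ℝ} (hη0 : 0 ≤ η) (hη2 : η ≤ 2)
    (hη : η ≤ ‖χ (word s l) - 1‖) :
    ‖vec Γ (ZO.iavg s h m)‖ ^ 2 ≤
      (1 - η ^ 2 / (36 * Fintype.card (G ⧸ Γ) * m ^ 2)) * ‖vec Γ h‖ ^ 2 := by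
  set V : ℝ := ((Fintype.card (G ⧸ Γ) : ℕ) : ℝ) with hV
  have hV0 : 0 < V := by
    have h0 : 0 < Fintype.card (G ⧸ Γ) := Fintype.card_pos_iff.2 ⟨((1 : G) : G ⧸ Γ)⟩
    rw [hV]
    exact Nat.cast_pos.2 h0
  have hm0 : (0 : ℝ) < m := by exact_mod_cast hm
  set D := ‖vec Γ h‖ ^ 2 - ‖vec Γ (ZO.iavg s h m)‖ ^ 2 with hD
  have hD0 : 0 ≤ D := by
    have := hh.norm_iavg_anti hχ s (m := 0) (n := m) (Nat.zero_le _)
    have := pow_le_pow_left₀ (norm_nonneg _) this 2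
    change _ ≤ ‖vec Γ h‖ ^ 2 at this
    linarith
  have hval := fun l hl => hh.value hχ s ht ht1 (m := m) (D := D) le_rfl l hl
  obtain ⟨g, hg⟩ := exists_large (Γ := Γ) h
  obtain ⟨l₁, hl₁, γ, hγ, hw⟩ := hr g
  have h1 : ‖h (word s l₁)‖ = ‖h g‖ := by
    rw [hw, hh γ hγ, norm_mul, hχ γ hγ, one_mul]
  have h2 := hval l₁ hl₁
  have h3 : ‖h g‖ ≤ ‖h 1‖ + 2 * m * √D := by
    rw [← h1]
    calc ‖h (word s l₁)‖ = ‖h 1 + (h (word s l₁) - h 1)‖ := by congr 1; ring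
      _ ≤ ‖h 1‖ + ‖h (word s l₁) - h 1‖ := norm_add_le _ _
      _ ≤ _ := by linarith
  have h4 : η * ‖h 1‖ ≤ 2 * m * √D := by
    have h5 := hval l hl
    have h6 : h (word s l) = χ (word s l) * h 1 := by
      have := hh _ hlΓ 1
      rwa [mul_one] at this
    have h7 : h (word s l) - h 1 = (χ (word s l) - 1) * h 1 := by rw [h6]; ring
    rw [h7, norm_mul] at h5
    exact (mul_le_mul_of_nonneg_right hη (norm_nonneg _)).trans h5
  have h5 : η * ‖h g‖ ≤ 6 * m * √D := by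
    have h8 : η * ‖h g‖ ≤ η * (‖h 1‖ + 2 * m * √D) := mul_le_mul_of_nonneg_left h3 hη0
    have h9 : η * (2 * m * √D) ≤ 2 * (2 * m * √D) := by
      apply mul_le_mul_of_nonneg_right hη2
      positivity
    nlinarith
  have h6 : (η * ‖h g‖) ^ 2 ≤ 36 * m ^ 2 * D := by
    calc (η * ‖h g‖) ^ 2 ≤ (6 * m * √D) ^ 2 := pow_le_pow_left₀ (by positivity) h5 2
      _ = 36 * m ^ 2 * D := by rw [mul_pow, mul_pow, Real.sq_sqrt hD0]; ring
  have h7 : η ^ 2 * ‖vec Γ h‖ ^ 2 ≤ 36 * V * m ^ 2 * D := by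
    calc η ^ 2 * ‖vec Γ h‖ ^ 2 ≤ η ^ 2 * (V * ‖h g‖ ^ 2) := by gcongr
      _ = V * (η * ‖h g‖) ^ 2 := by ring
      _ ≤ V * (36 * m ^ 2 * D) := by gcongr
      _ = _ := by ring
  have h8 : η ^ 2 / (36 * V * m ^ 2) * ‖vec Γ h‖ ^ 2 ≤ D := by
    rw [div_mul_eq_mul_div, div_le_iff₀ (by positivity)]
    linarith
  rw [sub_mul, one_mul]
  linarith

/-- iteration of a contraction -/
lemma Equi.iterate (hh : Equi Γ χ h) (s : Bool → G) {m : ℕ} {ε : ℝ} (hε : 0 ≤ ε) (hε1 : ε ≤ 1)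
    (P : (G → ℂ) → Prop) (hP : P h) (hPs : ∀ k, P k → P (ZO.iavg s k m))
    (hc : ∀ k, Equi Γ χ k → P k → ‖vec Γ (ZO.iavg s k m)‖ ^ 2 ≤ (1 - ε) * ‖vec Γ k‖ ^ 2)
    {j n : ℕ} (hn : m * j ≤ n) :
    ‖vec Γ (ZO.iavg s h n)‖ ^ 2 * (1 + j * ε) ≤ ‖vec Γ h‖ ^ 2 := by
  have h1 : ∀ j, P (ZO.iavg s h (m * j)) ∧
      ‖vec Γ (ZO.iavg s h (m * j))‖ ^ 2 ≤ (1 - ε) ^ j * ‖vec Γ h‖ ^ 2 := by
    intro j
    induction j with
    | zero =>
      rw [mul_zero, pow_zero, one_mul]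
      exact ⟨hP, le_rfl⟩
    | succ j ih =>
      rw [mul_add, mul_one, iavg_add]
      refine ⟨hPs _ ih.1, (hc _ (hh.iavg s _) ih.1).trans ?_⟩
      calc (1 - ε) * ‖vec Γ (ZO.iavg s h (m * j))‖ ^ 2
          ≤ (1 - ε) * ((1 - ε) ^ j * ‖vec Γ h‖ ^ 2) :=
            mul_le_mul_of_nonneg_left ih.2 (by linarith)
        _ = (1 - ε) ^ (j + 1) * ‖vec Γ h‖ ^ 2 := by rw [pow_succ]; ring
  have h2 := pow_le_pow_left₀ (norm_nonneg _) (hh.norm_iavg_anti hχ s hn) 2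
  have h3 := h2.trans (h1 j).2
  have h4 : (1 - ε) ^ j * (1 + j * ε) ≤ 1 := by
    have h5 : 1 + (j : ℝ) * ε ≤ (1 + ε) ^ j := one_add_mul_le_pow (by linarith) j
    calc (1 - ε) ^ j * (1 + j * ε) ≤ (1 - ε) ^ j * (1 + ε) ^ j :=
          mul_le_mul_of_nonneg_left h5 (pow_nonneg (by linarith) _)
      _ = (1 - ε ^ 2) ^ j := by rw [← mul_pow]; ring
      _ ≤ 1 := pow_le_one₀ (by nlinarith) (by nlinarith)
  have h6 : 0 ≤ 1 + (j : ℝ) * ε := by positivity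
  calc ‖vec Γ (ZO.iavg s h n)‖ ^ 2 * (1 + j * ε)
      ≤ ((1 - ε) ^ j * ‖vec Γ h‖ ^ 2) * (1 + j * ε) := mul_le_mul_of_nonneg_right h3 h6
    _ = ((1 - ε) ^ j * (1 + j * ε)) * ‖vec Γ h‖ ^ 2 := by ring
    _ ≤ 1 * ‖vec Γ h‖ ^ 2 := mul_le_mul_of_nonneg_right h4 (by positivity)
    _ = _ := one_mul _

end Pool.Agent.K4H33.ZO
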