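import Pool.Agent.K4H33.ZO.Walk

/-!
# Closed words: return probability and an inverse theorem
-/

set_option autoImplicit false
set_option linter.unusedSectionVars false

namespace Pool.Agent.K4H33.ZO

variable {G : Type} [Group G] {Γ : Subgroup G} [Fintype (G ⧸ Γ)]

/-- the sum of the values at the cosets -/
noncomputable def tot (Γ : Subgroup G) [Fintype (G ⧸ Γ)] (h : G → ℂ) : ℂ :=
  ∑ x : G ⧸ Γ, h (x.out)⁻¹

lemma Equi.out_one {h : G → ℂ} (hh : Equi Γ 1 h) (g : G) :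
    h (((g⁻¹ : G) : G ⧸ Γ).out)⁻¹ = h g := by
  obtain ⟨γ, hγ⟩ := QuotientGroup.mk_out_eq_mul Γ g⁻¹
  rw [hγ, mul_inv_rev, inv_inv, hh _ (Γ.inv_mem γ.2), Pi.one_apply, one_mul]

lemma Equi.tot_tr {h : G → ℂ} (hh : Equi Γ 1 h) (s : G) : tot Γ (ZO.tr s h) = tot Γ h := by
  rw [tot, tot]
  refine Fintype.sum_equiv (MulAction.toPerm s⁻¹) _ _ fun x => ?_
  rw [ZO.tr, ← hh.out_one]
  congr 2
  rw [mul_inv_rev, inv_inv, MulAction.toPerm_apply]
  conv_rhs => rw [← QuotientGroup.out_eq' x]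
  rfl

lemma tot_add (h k : G → ℂ) : tot Γ (h + k) = tot Γ h + tot Γ k := Finset.sum_add_distrib

lemma tot_smul (c : ℂ) (h : G → ℂ) : tot Γ (c • h) = c * tot Γ h := by
  rw [tot, tot, Finset.mul_sum]
  rfl

lemma Equi.tot_avg {h : G → ℂ} (hh : Equi Γ 1 h) (s : Bool → G) :
    tot Γ (ZO.avg s h) = tot Γ h := by
  rw [ZO.avg, tot_smul, tot_add, hh.tot_tr, hh.tot_tr]
  ring

lemma Equi.tot_iavg {h : G → ℂ} (hh : Equi Γ 1 h) (s : Bool → G) (n : ℕ) :
    tot Γ (ZO.iavg s h n) = tot Γ h := by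
  induction n with
  | zero => rfl
  | succ n ih =>
    rw [← ih]
    exact (hh.iavg s n).tot_avg s

/-- contraction for functions with sum zero -/
theorem Equi.contract_zero {h : G → ℂ} (hh : Equi Γ 1 h) (s : Bool → G) (ht : s false ∈ Γ)
    {m : ℕ} (hm : 0 < m) (hr : Reach Γ s m) (h0 : tot Γ h = 0) :
    ‖vec Γ (ZO.iavg s h m)‖ ^ 2 ≤
      (1 - 1 / (16 * Fintype.card (G ⧸ Γ) * m ^ 2)) * ‖vec Γ h‖ ^ 2 := by
  have hχ : ∀ γ ∈ Γ, ‖(1 : G → ℂ) γ‖ = 1 := fun γ _ => by rw [Pi.one_apply, norm_one]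
  set V : ℝ := ((Fintype.card (G ⧸ Γ) : ℕ) : ℝ) with hV
  have hV0 : 0 < V := by
    have h0 : 0 < Fintype.card (G ⧸ Γ) := Fintype.card_pos_iff.2 ⟨((1 : G) : G ⧸ Γ)⟩
    rw [hV]
    exact Nat.cast_pos.2 h0
  have hm0 : (0 : ℝ) < m := by exact_mod_cast hm
  set D := ‖vec Γ h‖ ^ 2 - ‖vec Γ (ZO.iavg s h m)‖ ^ 2 with hD
  have hD0 : 0 ≤ D := by
    have := hh.norm_iavg_anti hχ s (m := 0) (n := m) (Nat.zero_le _)
    have := pow_le_pow_left₀ (norm_nonneg _) this 2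
    change _ ≤ ‖vec Γ h‖ ^ 2 at this
    linarith
  have hval := fun l hl => hh.value hχ s ht rfl (m := m) (D := D) le_rfl l hl
  obtain ⟨g, hg⟩ := exists_large (Γ := Γ) h
  have h1 : ∀ g', ‖h g' - h 1‖ ≤ 2 * m * √D := by
    intro g'
    obtain ⟨l, hl, γ, hγ, hw⟩ := hr g'
    have h2 := hval l hl
    rw [hw, hh γ hγ, Pi.one_apply, one_mul] at h2
    exact h2
  have h2 : V * ‖h g‖ ≤ V * (4 * m * √D) := by
    have h3 : (V : ℂ) * h g = ∑ x : G ⧸ Γ, (h g - h (x.out)⁻¹) := by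
      rw [Finset.sum_sub_distrib, Finset.sum_const, Finset.card_univ, nsmul_eq_mul]
      change _ = _ - tot Γ h
      rw [h0, sub_zero, hV]
      push_cast
      rfl
    have h4 : ‖(V : ℂ) * h g‖ = V * ‖h g‖ := by
      rw [norm_mul, Complex.norm_real, Real.norm_of_nonneg hV0.le]
    rw [← h4, h3]
    refine (norm_sum_le _ _).trans ?_
    have h5 : ∀ x ∈ (Finset.univ : Finset (G ⧸ Γ)), ‖h g - h (x.out)⁻¹‖ ≤ 4 * m * √D := by
      intro x _
      calc ‖h g - h (x.out)⁻¹‖ = ‖(h g - h 1) - (h (x.out)⁻¹ - h 1)‖ := by congr 1; ring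
        _ ≤ ‖h g - h 1‖ + ‖h (x.out)⁻¹ - h 1‖ := norm_sub_le _ _
        _ ≤ 2 * m * √D + 2 * m * √D := add_le_add (h1 _) (h1 _)
        _ = _ := by ring
    refine (Finset.sum_le_sum h5).trans ?_
    rw [Finset.sum_const, Finset.card_univ, nsmul_eq_mul]
  have h3 : ‖h g‖ ≤ 4 * m * √D := le_of_mul_le_mul_left h2 hV0
  have h6 : ‖h g‖ ^ 2 ≤ 16 * m ^ 2 * D := by
    calc ‖h g‖ ^ 2 ≤ (4 * m * √D) ^ 2 := pow_le_pow_left₀ (by positivity) h3 2
      _ = 16 * m ^ 2 * D := by rw [mul_pow, mul_pow, Real.sq_sqrt hD0]; ring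
  have h7 : ‖vec Γ h‖ ^ 2 ≤ 16 * V * m ^ 2 * D := by
    calc ‖vec Γ h‖ ^ 2 ≤ V * ‖h g‖ ^ 2 := hg
      _ ≤ V * (16 * m ^ 2 * D) := by gcongr
      _ = _ := by ring
  have h8 : 1 / (16 * V * m ^ 2) * ‖vec Γ h‖ ^ 2 ≤ D := by
    rw [div_mul_eq_mul_div, one_mul, div_le_iff₀ (by positivity)]
    linarith
  rw [sub_mul, one_mul]
  linarith

/-- the iterated averages are averages over words -/
lemma iavg_eq (s : Bool → G) (h : G → ℂ) (n : ℕ) (g : G) :
    iavg s h n g = (∑ w : Fin n → Bool, h (g * word s (List.ofFn w))) / 2 ^ n := by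
  induction n generalizing g with
  | zero =>
    rw [pow_zero, div_one, Fintype.sum_unique]
    change h g = h (g * 1)
    rw [mul_one]
  | succ n ih =>
    change avg s (iavg s h n) g = _
    rw [avg_apply]
    have h1 : ∑ w : Fin (n + 1) → Bool, h (g * word s (List.ofFn w)) =
        ∑ b : Bool, ∑ w : Fin n → Bool, h (g * s b * word s (List.ofFn w)) := by
      rw [← Fintype.sum_prod_type']
      refine (Fintype.sum_equiv (Fin.consEquiv fun _ : Fin (n + 1) => Bool) _ _ ?_).symm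
      rintro ⟨b, w⟩
      change _ = h (g * word s (List.ofFn (Fin.cons b w : Fin (n + 1) → Bool)))
      rw [List.ofFn_cons, word_cons, mul_assoc]
    rw [h1]
    simp_rw [ih]
    rw [← Finset.sum_div, div_div, pow_succ]

open Classical in
/-- the closed words with `n` letters -/
noncomputable def closed (Γ : Subgroup G) (s : Bool → G) (n : ℕ) : Finset (Fin n → Bool) :=
  Finset.univ.filter fun w => word s (List.ofFn w) ∈ Γ

open Classical in
/-- a function supported on the subgroup -/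
noncomputable def delta (Γ : Subgroup G) (χ : G → ℂ) : G → ℂ := fun g => if g ∈ Γ then χ g else 0

lemma delta_equi {χ : G → ℂ} (hχ : ∀ γ ∈ Γ, ∀ g ∈ Γ, χ (γ * g) = χ γ * χ g) :
    Equi Γ χ (delta Γ χ) := by
  intro γ hγ g
  by_cases hg : g ∈ Γ
  · rw [delta, if_pos (Γ.mul_mem hγ hg), delta, if_pos hg, hχ γ hγ g hg]
  · have : γ * g ∉ Γ := fun h => hg ((Γ.mul_mem_cancel_left hγ).1 h)
    rw [delta, if_neg this, delta, if_neg hg, mul_zero]

lemma delta_out (x : G ⧸ Γ) :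
    (x.out)⁻¹ ∈ Γ ↔ x = ((1 : G) : G ⧸ Γ) := by
  rw [Γ.inv_mem_iff]
  conv_rhs => rw [← QuotientGroup.out_eq' x]
  rw [eq_comm, QuotientGroup.eq, inv_one, one_mul]

lemma delta_norm {χ : G → ℂ} (hχ : ∀ γ ∈ Γ, ‖χ γ‖ = 1) : ‖vec Γ (delta Γ χ)‖ ^ 2 = 1 := by
  rw [vec_sq, Finset.sum_eq_single ((1 : G) : G ⧸ Γ)]
  · have h1 : ((((1 : G) : G ⧸ Γ)).out)⁻¹ ∈ Γ := (delta_out _).2 rfl
    rw [delta, if_pos h1, hχ _ h1, one_pow]
  · intro x _ hx
    have h1 : (x.out)⁻¹ ∉ Γ := fun h => hx ((delta_out _).1 h)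
    rw [delta, if_neg h1, norm_zero, zero_pow two_ne_zero]
  · intro h
    exact absurd (Finset.mem_univ _) h

lemma delta_tot : tot Γ (delta Γ 1) = 1 := by
  rw [tot, Finset.sum_eq_single ((1 : G) : G ⧸ Γ)]
  · have h1 : ((((1 : G) : G ⧸ Γ)).out)⁻¹ ∈ Γ := (delta_out _).2 rfl
    rw [delta, if_pos h1, Pi.one_apply]
  · intro x _ hx
    have h1 : (x.out)⁻¹ ∉ Γ := fun h => hx ((delta_out _).1 h)
    rw [delta, if_neg h1]
  · intro h
    exact absurd (Finset.mem_univ _) h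

lemma iavg_delta (s : Bool → G) (χ : G → ℂ) (n : ℕ) :
    iavg s (delta Γ χ) n 1 = (∑ w ∈ closed Γ s n, χ (word s (List.ofFn w))) / 2 ^ n := by
  classical
  rw [iavg_eq, closed, Finset.sum_filter]
  congr 1
  refine Finset.sum_congr rfl fun w _ => ?_
  rw [one_mul, delta]

lemma iavg_sub (s : Bool → G) (h k : G → ℂ) (n : ℕ) :
    iavg s (h - k) n = iavg s h n - iavg s k n := by
  funext g
  rw [Pi.sub_apply, iavg_eq, iavg_eq, iavg_eq, ← sub_div, ← Finset.sum_sub_distrib]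
  rfl

lemma iavg_const (s : Bool → G) (c : ℂ) (n : ℕ) :
    iavg s (fun _ => c) n = fun _ => c := by
  funext g
  rw [iavg_eq, Finset.sum_const, Finset.card_univ, Fintype.card_fun, Fintype.card_bool,
    Fintype.card_fin, nsmul_eq_mul]
  push_cast
  rw [mul_div_cancel_left₀]
  exact pow_ne_zero _ two_ne_zero

/-- **Return probability.** -/
theorem closed_card (s : Bool → G) (ht : s false ∈ Γ) {m : ℕ} (hm : 0 < m) (hr : Reach Γ s m)
    {n : ℕ} (hn : m * (256 * (Fintype.card (G ⧸ Γ)) ^ 3 * m ^ 2) ≤ n) :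
    (2 : ℝ) ^ n ≤ 2 * Fintype.card (G ⧸ Γ) * (closed Γ s n).card := by
  set v := Fintype.card (G ⧸ Γ) with hv
  set V : ℝ := (v : ℝ) with hV
  have hv0 : 0 < v := Fintype.card_pos_iff.2 ⟨((1 : G) : G ⧸ Γ)⟩
  have hV1 : 1 ≤ V := by
    rw [hV]
    exact_mod_cast hv0
  have hV0 : 0 < V := by linarith
  have hm0 : (1 : ℝ) ≤ m := by exact_mod_cast hm
  have hχ : ∀ γ ∈ Γ, ‖(1 : G → ℂ) γ‖ = 1 := fun γ _ => by rw [Pi.one_apply, norm_one]
  set c : ℂ := (V : ℂ)⁻¹ with hc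
  set h : G → ℂ := delta Γ 1 - fun _ => c with hh
  have hd : Equi Γ 1 (delta Γ 1) := delta_equi (fun _ _ _ _ => by simp)
  have hcE : Equi Γ 1 (fun _ => c) := fun γ _ g => by simp
  have hE : Equi Γ 1 h := hd.sub hcE
  have htot : tot Γ h = 0 := by
    have h1 : tot Γ h = tot Γ (delta Γ 1) - tot Γ (fun _ => c) := Finset.sum_sub_distrib _ _
    rw [h1, delta_tot, tot, Finset.sum_const, Finset.card_univ, nsmul_eq_mul, hc, ← hv]
    have : ((v : ℕ) : ℂ) = (V : ℂ) := by rw [hV]; push_cast; rfl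
    rw [this, mul_inv_cancel₀, sub_self]
    exact_mod_cast hV0.ne'
  have hnorm : ‖vec Γ h‖ ^ 2 ≤ 4 := by
    have h1 : ‖vec Γ h‖ ≤ 2 := by
      rw [hh, vec_sub]
      refine (norm_sub_le _ _).trans ?_
      have h2 : ‖vec Γ (delta Γ 1)‖ ^ 2 = 1 := delta_norm hχ
      have h3 : ‖vec Γ (fun _ => c)‖ ^ 2 ≤ 1 := by
        rw [vec_sq, Finset.sum_const, Finset.card_univ, nsmul_eq_mul, ← hv, ← hV, hc, norm_inv,
          Complex.norm_real, Real.norm_of_nonneg hV0.le, inv_pow]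
        rw [sq, mul_inv, ← mul_assoc, mul_inv_cancel₀ hV0.ne', one_mul]
        exact inv_le_one_of_one_le₀ hV1
      have h4 : ‖vec Γ (delta Γ 1)‖ ≤ 1 := by nlinarith [norm_nonneg (vec Γ (delta Γ 1))]
      have h5 : ‖vec Γ (fun _ : G => c)‖ ≤ 1 := by
        nlinarith [norm_nonneg (vec Γ (fun _ : G => c))]
      linarith
    nlinarith [norm_nonneg (vec Γ h)]
  set ε : ℝ := 1 / (16 * V * m ^ 2) with hε
  have hε0 : 0 ≤ ε := by positivity
  have hε1 : ε ≤ 1 := by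
    rw [hε, div_le_one (by positivity)]
    nlinarith [one_le_pow₀ hm0 (n := 2)]
  have h1 := hE.iterate hχ s hε0 hε1 (fun k => Equi Γ 1 k ∧ tot Γ k = 0) ⟨hE, htot⟩
    (fun k hk => ⟨hk.1.iavg s m, by rw [hk.1.tot_iavg]; exact hk.2⟩)
    (fun k _ hk => hk.1.contract_zero s ht hm hr hk.2) hn
  have h2 : ((256 * v ^ 3 * m ^ 2 : ℕ) : ℝ) * ε = 16 * V ^ 2 := by
    rw [hε]
    push_cast
    rw [← hV]
    field_simp
    norm_num
  rw [h2] at h1
  have h3 : ‖ZO.iavg s h n 1‖ ^ 2 ≤ ‖vec Γ (ZO.iavg s h n)‖ ^ 2 :=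
    pow_le_pow_left₀ (norm_nonneg _) ((hE.iavg s n).le_norm hχ 1) 2
  have h4 : ‖ZO.iavg s h n 1‖ ^ 2 * (16 * V ^ 2) ≤ 4 := by
    have h5 : 0 ≤ ‖vec Γ (ZO.iavg s h n)‖ ^ 2 := by positivity
    have h6 : ‖ZO.iavg s h n 1‖ ^ 2 * (16 * V ^ 2) ≤ ‖vec Γ (ZO.iavg s h n)‖ ^ 2 * (16 * V ^ 2) :=
      mul_le_mul_of_nonneg_right h3 (by positivity)
    nlinarith
  have h5 : ‖ZO.iavg s h n 1‖ * V ≤ 1 / 2 := by
    have h6 : (‖ZO.iavg s h n 1‖ * V) ^ 2 ≤ (1 / 2) ^ 2 := by nlinarith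
    exact (pow_le_pow_iff_left₀ (by positivity) (by norm_num) two_ne_zero).1 h6
  have h6 : ZO.iavg s h n 1 = ((closed Γ s n).card : ℂ) / 2 ^ n - c := by
    rw [hh, iavg_sub, iavg_const, Pi.sub_apply, iavg_delta]
    simp
  have h7 : ((((closed Γ s n).card : ℝ) / 2 ^ n - V⁻¹ : ℝ) : ℂ) = ZO.iavg s h n 1 := by
    rw [h6, hc]
    push_cast
    rfl
  rw [← h7, Complex.norm_real, Real.norm_eq_abs] at h5
  have h8 := neg_abs_le (((closed Γ s n).card : ℝ) / 2 ^ n - V⁻¹)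
  have h9 : -(1 / 2) ≤ (((closed Γ s n).card : ℝ) / 2 ^ n - V⁻¹) * V := by
    nlinarith
  rw [sub_mul, inv_mul_cancel₀ hV0.ne', div_mul_eq_mul_div, le_sub_iff_add_le,
    le_div_iff₀ (by positivity)] at h9
  linarith

/-- the characters -/
noncomputable def chr (φ : G → ℝ) (θ : ℝ) : G → ℂ := fun g =>
  Complex.exp ((2 * Real.pi * θ * φ g : ℝ) * Complex.I)

lemma chr_norm (φ : G → ℝ) (θ : ℝ) (g : G) : ‖chr φ θ g‖ = 1 := Complex.norm_exp_ofReal_mul_I _

lemma chr_mul {φ : G → ℝ} (hφ : ∀ γ ∈ Γ, ∀ g ∈ Γ, φ (γ * g) = φ γ + φ g) (θ : ℝ) :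
    ∀ γ ∈ Γ, ∀ g ∈ Γ, chr φ θ (γ * g) = chr φ θ γ * chr φ θ g := by
  intro γ hγ g hg
  rw [chr, chr, chr, hφ γ hγ g hg, ← Complex.exp_add]
  congr 1
  push_cast
  ring

/-- decay of the twisted averages -/
theorem twisted_decay {φ : G → ℝ} (hφ : ∀ γ ∈ Γ, ∀ g ∈ Γ, φ (γ * g) = φ γ + φ g) (s : Bool → G)
    (ht : s false ∈ Γ) (ht0 : φ (s false) = 0) {m : ℕ} (hm : 0 < m) (hr : Reach Γ s m)
    {l : List Bool} (hl : l.length ≤ m) (hlΓ : word s l ∈ Γ) {R : ℕ} (hR : 2 ≤ R) {θ : ℝ}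
    (hη : 4 / (R : ℝ) ≤ ‖chr φ θ (word s l) - 1‖) {n : ℕ}
    (hn : m * (3 * R ^ 4 * Fintype.card (G ⧸ Γ) * m ^ 2) ≤ n) :
    ‖∑ w ∈ closed Γ s n, chr φ θ (word s (List.ofFn w))‖ * R ≤ 2 ^ n := by
  set v := Fintype.card (G ⧸ Γ) with hv
  set V : ℝ := (v : ℝ) with hV
  have hv0 : 0 < v := Fintype.card_pos_iff.2 ⟨((1 : G) : G ⧸ Γ)⟩
  have hV1 : 1 ≤ V := by
    rw [hV]
    exact_mod_cast hv0
  have hV0 : 0 < V := by linarith
  have hm0 : (1 : ℝ) ≤ m := by exact_mod_cast hm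
  have hR0 : (2 : ℝ) ≤ R := by exact_mod_cast hR
  have hχ : ∀ γ ∈ Γ, ‖chr φ θ γ‖ = 1 := fun γ _ => chr_norm _ _ _
  have hE : Equi Γ (chr φ θ) (delta Γ (chr φ θ)) := delta_equi (chr_mul hφ θ)
  set ε : ℝ := (4 / (R : ℝ)) ^ 2 / (36 * V * m ^ 2) with hε
  have hε0 : 0 ≤ ε := by positivity
  have h42 : 4 / (R : ℝ) ≤ 2 := by
    rw [div_le_iff₀ (by linarith)]
    linarith
  have hε1 : ε ≤ 1 := by
    rw [hε, div_le_one (by positivity)]
    have h1 : (4 / (R : ℝ)) ^ 2 ≤ 2 ^ 2 := pow_le_pow_left₀ (by positivity) h42 2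
    nlinarith [one_le_pow₀ hm0 (n := 2)]
  have ht1 : chr φ θ (s false) = 1 := by
    rw [chr, ht0]
    simp
  have h1 := hE.iterate hχ s hε0 hε1 (fun _ => True) trivial (fun _ _ => trivial)
    (fun k hk _ => hk.contract hχ s ht ht1 hm hr hl hlΓ (by positivity) h42 hη) hn
  rw [delta_norm hχ] at h1
  have h2 : (R : ℝ) ^ 2 ≤ ((3 * R ^ 4 * v * m ^ 2 : ℕ) : ℝ) * ε := by
    rw [hε]
    push_cast
    rw [← hV]
    have hR1 : (0 : ℝ) < R := by linarith
    have : 3 * (R : ℝ) ^ 4 * V * m ^ 2 * ((4 / R) ^ 2 / (36 * V * m ^ 2)) = 4 / 3 * R ^ 2 := by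
      field_simp
      norm_num
    rw [this]
    nlinarith
  have h3 : ‖ZO.iavg s (delta Γ (chr φ θ)) n 1‖ ^ 2 ≤
      ‖vec Γ (ZO.iavg s (delta Γ (chr φ θ)) n)‖ ^ 2 :=
    pow_le_pow_left₀ (norm_nonneg _) ((hE.iavg s n).le_norm hχ 1) 2
  have h4 : (‖ZO.iavg s (delta Γ (chr φ θ)) n 1‖ * R) ^ 2 ≤ 1 ^ 2 := by
    rw [mul_pow]
    have h5 : 0 ≤ ‖vec Γ (ZO.iavg s (delta Γ (chr φ θ)) n)‖ ^ 2 := by positivity
    nlinarith [mul_le_mul_of_nonneg_right h3 (by positivity : (0 : ℝ) ≤ R ^ 2),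
      mul_le_mul_of_nonneg_left h2 h5]
  have h5 := (pow_le_pow_iff_left₀ (by positivity) (by norm_num) two_ne_zero).1 h4
  rw [iavg_delta, norm_div, norm_pow, Complex.norm_ofNat, div_mul_eq_mul_div,
    div_le_one (by positivity)] at h5
  exact h5

/-- the distance of the roots of unity from one -/
lemma four_div_le {R k : ℕ} (hk : 0 < k) (hkR : k < R) :
    4 / (R : ℝ) ≤ 2 * |Real.sin (Real.pi * k / R)| := by
  have hR : (0 : ℝ) < R := by exact_mod_cast hk.trans hkR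
  have key : ∀ k : ℕ, 0 < k → 2 * k ≤ R → 2 / (R : ℝ) ≤ Real.sin (Real.pi * k / R) := by
    intro k hk hkR
    have h2 : (2 : ℝ) * k ≤ R := by exact_mod_cast hkR
    have h1 := Real.mul_le_sin (x := Real.pi * k / R) (by positivity) (by
      rw [div_le_iff₀ hR]
      nlinarith [Real.pi_pos])
    refine le_trans ?_ h1
    have h3 : 2 / Real.pi * (Real.pi * k / R) = 2 * k / R := by
      field_simp
    rw [h3]
    have h4 : (1 : ℝ) ≤ k := by exact_mod_cast hk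
    gcongr
    linarith
  have h1 : 2 / (R : ℝ) ≤ Real.sin (Real.pi * k / R) := by
    rcases Nat.lt_or_ge R (2 * k) with h | h
    · have h1 := key (R - k) (by omega) (by omega)
      rw [Nat.cast_sub hkR.le] at h1
      have h2 : Real.pi * ((R : ℝ) - k) / R = Real.pi - Real.pi * k / R := by
        field_simp
      rwa [h2, Real.sin_pi_sub] at h1
    · exact key k hk h
  have h2 := le_abs_self (Real.sin (Real.pi * k / R))
  have h3 : 4 / (R : ℝ) = 2 * (2 / R) := by ring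
  rw [h3]
  linarith

lemma chr_sub_one {φ : G → ℝ} {g : G} (hg : φ g ≠ 0) {R a b : ℕ} (ha : a < R) (hb : b < R)
    (hab : a ≠ b) :
    4 / (R : ℝ) ≤ ‖chr φ (((a : ℝ) - b) * (1 / (R * φ g))) g - 1‖ := by
  have hR : (0 : ℝ) < R := by
    have : 0 < R := by omega
    exact_mod_cast this
  have h1 : 2 * Real.pi * (((a : ℝ) - b) * (1 / (R * φ g))) * φ g =
      2 * (Real.pi * ((a : ℝ) - b) / R) := by
    field_simp
  rw [chr, h1, mul_comm _ Complex.I, Complex.norm_exp_I_mul_ofReal_sub_one, Real.norm_eq_abs,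
    abs_mul, abs_two]
  have h2 : 2 * (Real.pi * ((a : ℝ) - b) / R) / 2 = Real.pi * ((a : ℝ) - b) / R := by ring
  rw [h2]
  rcases Nat.lt_or_gt_of_ne hab with h | h
  · have h3 := four_div_le (R := R) (k := b - a) (by omega) (by omega)
    rw [Nat.cast_sub h.le] at h3
    have h4 : Real.pi * ((b : ℝ) - a) / R = -(Real.pi * ((a : ℝ) - b) / R) := by ring
    rwa [h4, Real.sin_neg, abs_neg] at h3
  · have h3 := four_div_le (R := R) (k := a - b) (by omega) (by omega)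
    rwa [Nat.cast_sub h.le] at h3

/-- **Inverse theorem.** If the homomorphism `φ` is large at some short closed word, then it is
small at few closed words of a large length. -/
theorem few_small {φ : G → ℝ} (hφ : ∀ γ ∈ Γ, ∀ g ∈ Γ, φ (γ * g) = φ γ + φ g) (s : Bool → G)
    (ht : s false ∈ Γ) (ht0 : φ (s false) = 0) {m : ℕ} (hm : 0 < m) (hr : Reach Γ s m)
    {l : List Bool} (hl : l.length ≤ m) (hlΓ : word s l ∈ Γ) {R : ℕ} (hR : 2 ≤ R) {X : ℝ}
    (hX : 8 * X ≤ |φ (word s l)|) (h0 : φ (word s l) ≠ 0) {n : ℕ}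
    (hn : m * (3 * R ^ 4 * Fintype.card (G ⧸ Γ) * m ^ 2) ≤ n)
    (S : Finset (Fin n → Bool)) (hS : ∀ w ∈ S, w ∈ closed Γ s n ∧ |φ (word s (List.ofFn w))| ≤ X) :
    (R : ℝ) * S.card ≤ 4 * 2 ^ n := by
  set τ : ℝ := 1 / (R * φ (word s l)) with hτ
  have hR0 : (2 : ℝ) ≤ R := by exact_mod_cast hR
  have hR1 : (0 : ℝ) < R := by linarith
  set A : (Fin n → Bool) → ℂ := fun w =>
    ∑ a ∈ Finset.range R, chr φ (a * τ) (word s (List.ofFn w)) with hA
  have hpos : 0 < |φ (word s l)| := abs_pos.2 h0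
  have hlow : ∀ w ∈ S, (R : ℝ) ^ 2 / 2 ≤ ‖A w‖ ^ 2 := by
    intro w hw
    have h1 := (hS w hw).2
    have h2 : ∀ a ∈ Finset.range R, √2 / 2 ≤ (chr φ (a * τ) (word s (List.ofFn w))).re := by
      intro a ha
      rw [Finset.mem_range] at ha
      have haR : (a : ℝ) ≤ R := by exact_mod_cast ha.le
      rw [chr, Complex.exp_ofReal_mul_I_re, ← Real.cos_abs, ← Real.cos_pi_div_four]
      refine Real.cos_le_cos_of_nonneg_of_le_pi (abs_nonneg _) (by linarith [Real.pi_pos]) ?_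
      rw [hτ, abs_mul, abs_mul, abs_mul, abs_mul, abs_two, abs_of_pos Real.pi_pos, Nat.abs_cast,
        abs_div, abs_one, abs_mul, Nat.abs_cast]
      have h3 : (a : ℝ) * (1 / (R * |φ (word s l)|)) * |φ (word s (List.ofFn w))| ≤ 1 / 8 := by
        rw [mul_one_div, div_mul_eq_mul_div, div_le_iff₀ (by positivity)]
        have h4 : (a : ℝ) * |φ (word s (List.ofFn w))| ≤ R * X := by
          exact mul_le_mul haR h1 (abs_nonneg _) hR1.le
        nlinarith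
      calc 2 * Real.pi * ((a : ℝ) * (1 / (R * |φ (word s l)|))) * |φ (word s (List.ofFn w))|
          = 2 * Real.pi * ((a : ℝ) * (1 / (R * |φ (word s l)|)) * |φ (word s (List.ofFn w))|) := by
            ring
        _ ≤ 2 * Real.pi * (1 / 8) := by gcongr
        _ = Real.pi / 4 := by ring
    have h3 : R * (√2 / 2) ≤ (A w).re := by
      rw [hA, Complex.re_sum]
      have := Finset.sum_le_sum h2
      rwa [Finset.sum_const, Finset.card_range, nsmul_eq_mul] at this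
    have h4 : R * (√2 / 2) ≤ ‖A w‖ := h3.trans (Complex.re_le_norm _)
    have h5 := pow_le_pow_left₀ (by positivity) h4 2
    rw [mul_pow, div_pow, Real.sq_sqrt (by norm_num)] at h5
    linarith
  have hup : ∑ w ∈ closed Γ s n, ‖A w‖ ^ 2 ≤ 2 * R * 2 ^ n := by
    have h1 : ((∑ w ∈ closed Γ s n, ‖A w‖ ^ 2 : ℝ) : ℂ) =
        ∑ a ∈ Finset.range R, ∑ b ∈ Finset.range R,
          ∑ w ∈ closed Γ s n, chr φ (((a : ℝ) - b) * τ) (word s (List.ofFn w)) := by
      have h2 : ∀ w : Fin n → Bool, ((‖A w‖ ^ 2 : ℝ) : ℂ) =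
          ∑ a ∈ Finset.range R, ∑ b ∈ Finset.range R,
            chr φ (((a : ℝ) - b) * τ) (word s (List.ofFn w)) := by
        intro w
        rw [← Complex.normSq_eq_norm_sq, Complex.normSq_eq_conj_mul_self, hA]
        dsimp only
        rw [mul_comm, map_sum, Finset.sum_mul_sum]
        refine Finset.sum_congr rfl fun a _ => Finset.sum_congr rfl fun b _ => ?_
        rw [chr, chr, chr, ← Complex.exp_conj, ← Complex.exp_add]
        congr 1
        rw [map_mul, Complex.conj_I, Complex.conj_ofReal]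
        push_cast
        ring
      push_cast at h2 ⊢
      rw [Finset.sum_congr rfl fun w _ => h2 w, Finset.sum_comm]
      refine Finset.sum_congr rfl fun a _ => ?_
      rw [Finset.sum_comm]
    have h2 : ∑ w ∈ closed Γ s n, ‖A w‖ ^ 2 ≤
        ∑ a ∈ Finset.range R, ∑ b ∈ Finset.range R, (if a = b then (2 : ℝ) ^ n else 2 ^ n / R) := by
      calc ∑ w ∈ closed Γ s n, ‖A w‖ ^ 2
          ≤ ‖((∑ w ∈ closed Γ s n, ‖A w‖ ^ 2 : ℝ) : ℂ)‖ := by
            rw [Complex.norm_real]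
            exact le_abs_self _
        _ ≤ _ := by
          rw [h1]
          refine (norm_sum_le _ _).trans (Finset.sum_le_sum fun a ha => ?_)
          refine (norm_sum_le _ _).trans (Finset.sum_le_sum fun b hb => ?_)
          rw [Finset.mem_range] at ha hb
          by_cases hab : a = b
          · rw [if_pos hab]
            refine (norm_sum_le _ _).trans ?_
            rw [Finset.sum_congr rfl fun w _ => chr_norm _ _ _, Finset.sum_const, nsmul_eq_mul,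
              mul_one]
            have h3 : (closed Γ s n).card ≤ 2 ^ n := by
              refine (Finset.card_le_univ _).trans ?_
              rw [Fintype.card_fun, Fintype.card_bool, Fintype.card_fin]
            exact_mod_cast h3
          · rw [if_neg hab, le_div_iff₀ hR1]
            exact twisted_decay hφ s ht ht0 hm hr hl hlΓ hR (chr_sub_one h0 ha hb hab) hn
    refine h2.trans ?_
    have h3 : ∀ a ∈ Finset.range R, ∑ b ∈ Finset.range R,
        (if a = b then (2 : ℝ) ^ n else 2 ^ n / R) ≤ 2 * 2 ^ n := by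
      intro a ha
      calc ∑ b ∈ Finset.range R, (if a = b then (2 : ℝ) ^ n else 2 ^ n / R)
          ≤ ∑ b ∈ Finset.range R, ((if a = b then (2 : ℝ) ^ n else 0) + 2 ^ n / R) := by
            refine Finset.sum_le_sum fun b _ => ?_
            split_ifs
            · have : (0 : ℝ) ≤ 2 ^ n / R := by positivity
              linarith
            · linarith
        _ = 2 * 2 ^ n := by
            rw [Finset.sum_add_distrib, Finset.sum_ite_eq, if_pos ha, Finset.sum_const,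
              Finset.card_range, nsmul_eq_mul, mul_div_cancel₀ _ hR1.ne']
            ring
    refine (Finset.sum_le_sum h3).trans ?_
    rw [Finset.sum_const, Finset.card_range, nsmul_eq_mul]
    exact le_of_eq (by ring)
  have h1 : (S.card : ℝ) * ((R : ℝ) ^ 2 / 2) ≤ 2 * R * 2 ^ n := by
    refine le_trans ?_ hup
    calc (S.card : ℝ) * ((R : ℝ) ^ 2 / 2) = ∑ _w ∈ S, (R : ℝ) ^ 2 / 2 := by
          rw [Finset.sum_const, nsmul_eq_mul]
      _ ≤ ∑ w ∈ S, ‖A w‖ ^ 2 := Finset.sum_le_sum hlow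
      _ ≤ ∑ w ∈ closed Γ s n, ‖A w‖ ^ 2 :=
          Finset.sum_le_sum_of_subset_of_nonneg (fun w hw => (hS w hw).1)
            (fun _ _ _ => by positivity)
  have h2 : (R : ℝ) * ((R : ℝ) * S.card) ≤ R * (4 * 2 ^ n) := by nlinarith
  exact le_of_mul_le_mul_left h2 hR1

end Pool.Agent.K4H33.ZO
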